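import Mathlib

/-!
# Efficient local representations: definitions and the tuple lemma (for `MP_1243c9_co`)
-/

namespace Pool.Agent.Helper72.ELR

/-- The graph property `P` (given by the graphs with vertex set `Fin n` that it contains) has an
efficient local representation: a symmetric relation `A` on the positive integers and a constant
`c ≥ 1` such that every graph of `P` with `n` vertices has a labelling with labels in
`{1, …, n^c}` for which distinct vertices are adjacent iff `A` holds for their labels. -/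
def HasELR (P : ∀ n : ℕ, SimpleGraph (Fin n) → Prop) : Prop :=
  ∃ A : ℕ → ℕ → Prop, (∀ x y, A x y → A y x) ∧ ∃ c : ℕ, 1 ≤ c ∧
    ∀ (n : ℕ) (G : SimpleGraph (Fin n)), P n G → ∃ l : Fin n → ℕ,
      (∀ v, 1 ≤ l v ∧ l v ≤ n ^ c) ∧ ∀ v w, v ≠ w → (G.Adj v w ↔ A (l v) (l w))

/-- The `d`-dimensional unit ball graphs with vertex set `Fin n`. -/
def UnitBall (d n : ℕ) (G : SimpleGraph (Fin n)) : Prop :=
  ∃ f : Fin n → EuclideanSpace ℝ (Fin d), ∀ v w, v ≠ w → (G.Adj v w ↔ dist (f v) (f w) ≤ 1)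

/-- Injective polynomially bounded encoding of tuples. -/
lemma exists_enc (m : ℕ) : ∃ enc : (Fin m → ℕ) → ℕ, Function.Injective enc ∧
    ∃ K : ℕ, 1 ≤ K ∧ ∀ (t : Fin m → ℕ) (B : ℕ), (∀ i, t i ≤ B) → enc t ≤ (B + 2) ^ K := by
  induction m with
  | zero =>
    refine ⟨fun _ => 0, fun a b _ => Subsingleton.elim _ _, 1, le_rfl, fun t B _ => ?_⟩
    positivity
  | succ m ih =>
    obtain ⟨enc, hinj, K, hK, hb⟩ := ih
    refine ⟨fun t => Nat.pair (t 0) (enc (Fin.tail t)), ?_, 2 * K + 2, by omega, ?_⟩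
    · intro a b hab
      simp only [Nat.pair_eq_pair] at hab
      have h2 := hinj hab.2
      rw [← Fin.cons_self_tail a, ← Fin.cons_self_tail b, hab.1, h2]
    · intro t B ht
      have h1 : t 0 ≤ (B + 2) ^ K := by
        calc t 0 ≤ B := ht 0
          _ ≤ B + 2 := by omega
          _ = (B + 2) ^ 1 := by ring
          _ ≤ (B + 2) ^ K := Nat.pow_le_pow_right (by omega) hK
      have h2 : enc (Fin.tail t) ≤ (B + 2) ^ K := hb _ B (fun i => ht _)
      have h3 := Nat.pair_lt_max_add_one_sq (t 0) (enc (Fin.tail t))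
      have h4 : max (t 0) (enc (Fin.tail t)) + 1 ≤ (B + 2) ^ (K + 1) := by
        have : (1 : ℕ) ≤ (B + 2) ^ K := Nat.one_le_pow _ _ (by omega)
        have h5 : (B + 2) ^ (K + 1) = (B + 2) ^ K * (B + 2) := pow_succ _ _
        have h6 : (B + 2) ^ K * 2 ≤ (B + 2) ^ K * (B + 2) := Nat.mul_le_mul_left _ (by omega)
        have h7 : max (t 0) (enc (Fin.tail t)) ≤ (B + 2) ^ K := max_le h1 h2
        omega
      calc Nat.pair (t 0) (enc (Fin.tail t))
          ≤ (max (t 0) (enc (Fin.tail t)) + 1) ^ 2 := h3.le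
        _ ≤ ((B + 2) ^ (K + 1)) ^ 2 := Nat.pow_le_pow_left h4 2
        _ = (B + 2) ^ (2 * K + 2) := by rw [← pow_mul]; congr 1; ring

/-- Tuple lemma: it is enough to give labels that are tuples (of constant length) of numbers of
polynomial size, and a relation on tuples. -/
lemma hasELR_of_tuple {P : ∀ n : ℕ, SimpleGraph (Fin n) → Prop} (m C : ℕ)
    (R : (Fin m → ℕ) → (Fin m → ℕ) → Prop)
    (h : ∀ (n : ℕ) (G : SimpleGraph (Fin n)), P n G → ∃ l : Fin n → Fin m → ℕ,
      (∀ v i, l v i ≤ (n + 1) ^ C) ∧ ∀ v w, v ≠ w → (G.Adj v w ↔ R (l v) (l w))) :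
    HasELR P := by
  obtain ⟨enc, hinj, K, hK, hb⟩ := exists_enc m
  refine ⟨fun x y => ∃ t t', enc t + 1 = x ∧ enc t' + 1 = y ∧ (R t t' ∨ R t' t), ?_,
    (2 * C + 2) * K + 1, by omega, ?_⟩
  · rintro x y ⟨t, t', h1, h2, h3⟩
    exact ⟨t', t, h2, h1, h3.symm⟩
  · intro n G hG
    obtain ⟨l, hl, hadj⟩ := h n G hG
    rcases Nat.lt_or_ge n 2 with hn | hn
    · refine ⟨fun _ => 1, fun v => ⟨le_rfl, ?_⟩, ?_⟩
      · have : n = 1 := by have := v.2; omega
        subst this; simp
      · intro v w hvw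
        exact absurd (Fin.ext (by have := v.2; have := w.2; omega)) hvw
    · refine ⟨fun v => enc (l v) + 1, fun v => ⟨Nat.le_add_left 1 _, ?_⟩, ?_⟩
      · have h1 := hb (l v) ((n + 1) ^ C) (fun i => hl v i)
        have h2 : (n + 1) ^ C + 2 ≤ n ^ (2 * C + 2) := by
          have h3 : n + 1 ≤ n ^ 2 := by nlinarith
          have h4 : (n + 1) ^ C ≤ n ^ (2 * C) := by
            rw [pow_mul]; exact Nat.pow_le_pow_left h3 C
          have h5 : n ^ (2 * C + 2) = n ^ (2 * C) * (n * n) := by ring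
          have h6 : 1 ≤ n ^ (2 * C) := Nat.one_le_pow _ _ (by omega)
          have h7 : 4 ≤ n * n := by nlinarith
          nlinarith
        have h8 : ((n + 1) ^ C + 2) ^ K ≤ n ^ ((2 * C + 2) * K) := by
          rw [pow_mul]; exact Nat.pow_le_pow_left h2 K
        have h9 : n ^ ((2 * C + 2) * K + 1) = n ^ ((2 * C + 2) * K) * n := pow_succ _ _
        have h10 : 1 ≤ n ^ ((2 * C + 2) * K) := Nat.one_le_pow _ _ (by omega)
        show enc (l v) + 1 ≤ _
        nlinarith
      · intro v w hvw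
        rw [hadj v w hvw]
        constructor
        · intro hr
          exact ⟨l v, l w, rfl, rfl, Or.inl hr⟩
        · rintro ⟨t, t', h1, h2, h3⟩
          have e1 : t = l v := hinj (Nat.succ_injective h1)
          have e2 : t' = l w := hinj (Nat.succ_injective h2)
          subst e1 e2
          rcases h3 with h3 | h3
          · exact h3
          · rw [← hadj v w hvw, G.adj_comm, hadj w v hvw.symm]; exact h3

/-- The same with an arbitrary finite index type. -/
lemma hasELR_of_fintype {P : ∀ n : ℕ, SimpleGraph (Fin n) → Prop} (ι : Type) [Fintype ι] (C : ℕ)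
    (R : (ι → ℕ) → (ι → ℕ) → Prop)
    (h : ∀ (n : ℕ) (G : SimpleGraph (Fin n)), P n G → ∃ l : Fin n → ι → ℕ,
      (∀ v i, l v i ≤ (n + 1) ^ C) ∧ ∀ v w, v ≠ w → (G.Adj v w ↔ R (l v) (l w))) :
    HasELR P := by
  let e := Fintype.equivFin ι
  refine hasELR_of_tuple (Fintype.card ι) C (fun s t => R (s ∘ e) (t ∘ e)) ?_
  intro n G hG
  obtain ⟨l, hl, hadj⟩ := h n G hG
  refine ⟨fun v i => l v (e.symm i), fun v i => hl v _, fun v w hvw => ?_⟩
  rw [hadj v w hvw]
  have : ∀ v, (fun i => l v (e.symm i)) ∘ e = l v := by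
    intro v; ext i; simp
  rw [this, this]

end Pool.Agent.Helper72.ELR
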