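import Mathlib
import Pool.Agent.Helper72.ELRBasic

/-!
# Unit ball graphs and point - half-space graphs
-/

namespace Pool.Agent.Helper72.ELR

/-- Bipartite point–half-space graphs in `ℝ^d` with vertex set `Fin n`: the vertices of one side
`S` are points `f v`, the vertices `w` of the other side are closed half-spaces
`{x | ⟪f w, x⟫ ≤ b w}`, and a point is adjacent to a half-space iff it belongs to it. -/
def PointHalfspace (d n : ℕ) (G : SimpleGraph (Fin n)) : Prop :=
  ∃ (S : Set (Fin n)) (f : Fin n → EuclideanSpace ℝ (Fin d)) (b : Fin n → ℝ),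
    ∀ v w, G.Adj v w ↔ (v ∈ S ∧ w ∉ S ∧ inner ℝ (f w) (f v) ≤ b w) ∨
      (w ∈ S ∧ v ∉ S ∧ inner ℝ (f v) (f w) ≤ b v)

/-- transfer of labels from a point–half-space graph on `n + n` vertices -/
lemma labels_of_pointHalfspace {N : ℕ} (h : HasELR (PointHalfspace N)) :
    ∃ (A : ℕ → ℕ → Prop) (C : ℕ), ∀ (n : ℕ) (x y : Fin n → EuclideanSpace ℝ (Fin N))
      (b : Fin n → ℝ), ∃ l l' : Fin n → ℕ, (∀ v, l v ≤ (n + 1) ^ C) ∧ (∀ v, l' v ≤ (n + 1) ^ C) ∧
        ∀ v w, A (l v) (l' w) ↔ inner ℝ (y w) (x v) ≤ b w := by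
  obtain ⟨A, -, c, hc, hA⟩ := h
  refine ⟨A, 2 * c, fun n x y b => ?_⟩
  let S : Set (Fin (n + n)) := Set.range (Fin.castAdd n)
  let f : Fin (n + n) → EuclideanSpace ℝ (Fin N) := Fin.addCases x y
  let β : Fin (n + n) → ℝ := Fin.addCases (fun _ => 0) b
  have hnotS : ∀ w : Fin n, Fin.natAdd n w ∉ S := by
    rintro w ⟨v, hv⟩
    have := congrArg Fin.val hv
    simp at this
    omega
  have hS : ∀ v : Fin n, Fin.castAdd n v ∈ S := fun v => ⟨v, rfl⟩
  let G : SimpleGraph (Fin (n + n)) :=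
    { Adj := fun v w => (v ∈ S ∧ w ∉ S ∧ inner ℝ (f w) (f v) ≤ β w) ∨
        (w ∈ S ∧ v ∉ S ∧ inner ℝ (f v) (f w) ≤ β v)
      symm := ⟨fun v w h => h.symm⟩
      loopless := ⟨fun v h => by rcases h with h | h <;> exact h.2.1 h.1⟩ }
  obtain ⟨l, hl, hadj⟩ := hA (n + n) G ⟨S, f, β, fun v w => Iff.rfl⟩
  have hb : ∀ v, l v ≤ (n + 1) ^ (2 * c) := by
    intro v
    refine (hl v).2.trans ?_
    rw [pow_mul]
    exact Nat.pow_le_pow_left (by nlinarith) c
  refine ⟨fun v => l (Fin.castAdd n v), fun v => l (Fin.natAdd n v), fun v => hb _, fun v => hb _,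
    fun v w => ?_⟩
  have hne : Fin.castAdd n v ≠ Fin.natAdd n w := by
    intro h0
    exact hnotS w (h0 ▸ hS v)
  have f1 : f (Fin.castAdd n v) = x v := Fin.addCases_left _
  have f2 : f (Fin.natAdd n w) = y w := Fin.addCases_right _
  have f3 : β (Fin.natAdd n w) = b w := Fin.addCases_right _
  rw [← hadj _ _ hne]
  constructor
  · rintro (⟨-, -, h3⟩ | ⟨h1, -, -⟩)
    · rw [f1, f2, f3] at h3; exact h3
    · exact absurd h1 (hnotS w)
  · intro h3
    left
    exact ⟨hS v, hnotS w, by rw [f1, f2, f3]; exact h3⟩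

/-- The lifting `x ↦ (x, ‖x‖²)`. -/
theorem unitBall_of_pointHalfspace (d : ℕ) (h : HasELR (PointHalfspace (d + 1))) :
    HasELR (UnitBall d) := by
  obtain ⟨A, C, hA⟩ := labels_of_pointHalfspace h
  refine hasELR_of_fintype (Fin 2) C (fun L L' => A (L 0) (L' 1)) ?_
  rintro n G ⟨f, hf⟩
  obtain ⟨l, l', hl, hl', hadj⟩ := hA n
    (fun v => WithLp.toLp 2 (Fin.cons (‖f v‖ ^ 2) (fun i => f v i)))
    (fun w => WithLp.toLp 2 (Fin.cons 1 (fun i => -2 * f w i)))
    (fun w => 1 - ‖f w‖ ^ 2)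
  refine ⟨fun v i => if i = 0 then l v else l' v, ?_, ?_⟩
  · intro v i
    dsimp only
    split_ifs
    · exact hl v
    · exact hl' v
  · intro v w hvw
    rw [hf v w hvw]
    have : A (l v) (l' w) ↔ dist (f v) (f w) ≤ 1 := by
      rw [hadj]
      have h1 : inner ℝ (WithLp.toLp 2 (Fin.cons (1 : ℝ) (fun i => -2 * f w i)) :
          EuclideanSpace ℝ (Fin (d + 1)))
          (WithLp.toLp 2 (Fin.cons (‖f v‖ ^ 2) (fun i => f v i)))
          = ‖f v‖ ^ 2 - 2 * inner ℝ (f v) (f w) := by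
        simp only [PiLp.inner_apply, Fin.sum_univ_succ, Fin.cons_zero, Fin.cons_succ]
        simp only [RCLike.inner_apply, conj_trivial, mul_one, sub_eq_add_neg, Finset.mul_sum]
        rw [← Finset.sum_neg_distrib]
        congr 1
        refine Finset.sum_congr rfl (fun i _ => ?_)
        ring
      rw [h1, dist_eq_norm]
      have h2 : ‖f v - f w‖ ^ 2 = ‖f v‖ ^ 2 - 2 * inner ℝ (f v) (f w) + ‖f w‖ ^ 2 :=
        norm_sub_sq_real _ _
      have h3 : (‖f v - f w‖ ≤ 1) ↔ ‖f v - f w‖ ^ 2 ≤ 1 := by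
        rw [sq_le_one_iff₀ (norm_nonneg _)]
      rw [h3, h2]
      constructor <;> intro h <;> linarith
    simpa using this.symm

/-- Points and closed half-spaces are approximated by centres of unit balls. -/
lemma exists_unitBall_approx {d : ℕ} (hd : 1 ≤ d) {ι κ : Type*} [Finite ι] [Finite κ]
    (x : ι → EuclideanSpace ℝ (Fin d)) (y : κ → EuclideanSpace ℝ (Fin d)) (b : κ → ℝ) :
    ∃ (X : ι → EuclideanSpace ℝ (Fin d)) (Y : κ → EuclideanSpace ℝ (Fin d)),
      ∀ i k, dist (X i) (Y k) ≤ 1 ↔ inner ℝ (y k) (x i) ≤ b k := by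
  classical
  have := Fintype.ofFinite ι
  have := Fintype.ofFinite κ
  -- unit normals and strict inequalities
  have h1 : ∀ k, ∃ (u : EuclideanSpace ℝ (Fin d)) (β : ℝ), ‖u‖ = 1 ∧ ∀ i,
      inner ℝ u (x i) - β ≠ 0 ∧ (inner ℝ u (x i) - β < 0 ↔ inner ℝ (y k) (x i) ≤ b k) := by
    intro k
    -- a strict version of the bound
    have h2 : ∃ b' : ℝ, ∀ i, inner ℝ (y k) (x i) - b' ≠ 0 ∧
        (inner ℝ (y k) (x i) - b' < 0 ↔ inner ℝ (y k) (x i) ≤ b k) := by
      have h3 : ∀ i, ∀ᶠ t in nhdsWithin (0 : ℝ) (Set.Ioi 0),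
          inner ℝ (y k) (x i) - (b k + t) ≠ 0 ∧
          (inner ℝ (y k) (x i) - (b k + t) < 0 ↔ inner ℝ (y k) (x i) ≤ b k) := by
        intro i
        rcases le_or_gt (inner ℝ (y k) (x i)) (b k) with h4 | h4
        · filter_upwards [self_mem_nhdsWithin] with t ht
          have ht' : 0 < t := ht
          exact ⟨by linarith, ⟨fun _ => h4, fun _ => by linarith⟩⟩
        · have h5 : ∀ᶠ t in nhdsWithin (0 : ℝ) (Set.Ioi 0), t < inner ℝ (y k) (x i) - b k := by
            apply Filter.Eventually.filter_mono nhdsWithin_le_nhds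
            exact eventually_lt_nhds (by linarith)
          filter_upwards [h5] with t ht
          exact ⟨by linarith, ⟨fun h => by linarith, fun h => by linarith⟩⟩
      obtain ⟨t, ht⟩ := (Filter.eventually_all.2 h3).exists
      exact ⟨b k + t, ht⟩
    obtain ⟨b', hb'⟩ := h2
    by_cases hy : y k = 0
    · -- zero normal
      obtain ⟨M, hM⟩ : ∃ M : ℝ, ∀ i, ‖x i‖ < M := by
        obtain ⟨M, hM⟩ := (Set.finite_range (fun i => ‖x i‖)).bddAbove
        exact ⟨M + 1, fun i => by have := hM ⟨i, rfl⟩; linarith⟩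
      obtain ⟨u, hu⟩ : ∃ u : EuclideanSpace ℝ (Fin d), ‖u‖ = 1 :=
        ⟨EuclideanSpace.single ⟨0, hd⟩ 1, by simp⟩
      refine ⟨u, if 0 < b' then M else -M, hu, fun i => ?_⟩
      have h6 := abs_real_inner_le_norm u (x i)
      rw [hu, one_mul, abs_le] at h6
      have h7 := hM i
      have h8 := hb' i
      rw [hy, inner_zero_left] at h8 ⊢
      split_ifs with hb0
      · refine ⟨by linarith [h6.2], ⟨fun _ => h8.2.1 (by linarith), fun _ => by linarith [h6.2]⟩⟩
      · refine ⟨by linarith [h6.1], ⟨fun h => by linarith [h6.1], fun h => ?_⟩⟩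
        have := h8.2.2 h
        linarith
    · have hn : 0 < ‖y k‖ := norm_pos_iff.2 hy
      refine ⟨‖y k‖⁻¹ • y k, ‖y k‖⁻¹ * b', ?_, fun i => ?_⟩
      · rw [norm_smul, norm_inv, norm_norm]
        exact inv_mul_cancel₀ hn.ne'
      · rw [real_inner_smul_left, ← mul_sub]
        have hi : 0 < ‖y k‖⁻¹ := inv_pos.2 hn
        refine ⟨mul_ne_zero hi.ne' (hb' i).1, ?_⟩
        rw [← (hb' i).2]
        constructor
        · intro h
          by_contra h0
          exact absurd (mul_nonneg hi.le (not_lt.1 h0)) (not_le.2 h)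
        · intro h
          exact mul_neg_of_pos_of_neg hi h
  choose u β hu hβ using h1
  -- small scale
  have h2 : ∀ i k, ∀ᶠ ε in nhdsWithin (0 : ℝ) (Set.Ioi 0),
      (2 * (inner ℝ (u k) (x i) - β k) + ε * (‖x i‖ ^ 2 - 2 * β k * inner ℝ (u k) (x i) +
        β k ^ 2) ≤ 0 ↔ inner ℝ (u k) (x i) - β k < 0) := by
    intro i k
    set q : ℝ := inner ℝ (u k) (x i) - β k with hq
    set K : ℝ := ‖x i‖ ^ 2 - 2 * β k * inner ℝ (u k) (x i) + β k ^ 2
    have h3 : Filter.Tendsto (fun ε : ℝ => 2 * q + ε * K) (nhds 0) (nhds (2 * q)) := by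
      have : Continuous (fun ε : ℝ => 2 * q + ε * K) := by fun_prop
      simpa using this.tendsto 0
    have h4 : q ≠ 0 := (hβ k i).1
    apply Filter.Eventually.filter_mono nhdsWithin_le_nhds
    rcases lt_or_gt_of_ne h4 with h5 | h5
    · filter_upwards [h3.eventually (eventually_lt_nhds (show 2 * q < 0 by linarith))] with ε hε
      exact ⟨fun _ => h5, fun _ => hε.le⟩
    · filter_upwards [h3.eventually (eventually_gt_nhds (show 0 < 2 * q by linarith))] with ε hε
      exact ⟨fun h => by linarith, fun h => by linarith⟩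
  obtain ⟨ε, hε, hε0⟩ := ((Filter.eventually_all.2 fun i => Filter.eventually_all.2 (h2 i)).and
    self_mem_nhdsWithin).exists
  have hε0 : 0 < ε := hε0
  refine ⟨fun i => ε • x i, fun k => -((1 - ε * β k) • u k), fun i k => ?_⟩
  rw [← (hβ k i).2, ← hε i k, dist_eq_norm]
  have h3 : ‖ε • x i - -((1 - ε * β k) • u k)‖ ^ 2 = 1 + ε * (2 * (inner ℝ (u k) (x i) - β k) +
      ε * (‖x i‖ ^ 2 - 2 * β k * inner ℝ (u k) (x i) + β k ^ 2)) := by
    rw [sub_neg_eq_add, norm_add_sq_real, norm_smul, norm_smul, real_inner_smul_left,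
      real_inner_smul_right, hu k, real_inner_comm, mul_one, mul_pow, Real.norm_eq_abs,
      Real.norm_eq_abs, sq_abs, sq_abs]
    ring
  rw [← sq_le_one_iff₀ (norm_nonneg _), h3]
  constructor
  · intro h
    by_contra h0
    have := mul_pos hε0 (not_le.1 h0)
    linarith
  · intro h
    have := mul_nonpos_of_nonneg_of_nonpos hε0.le h
    linarith

theorem pointHalfspace_of_unitBall {d : ℕ} (hd : 1 ≤ d) (h : HasELR (UnitBall d)) :
    HasELR (PointHalfspace d) := by
  classical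
  obtain ⟨A, hAs, c, hc, hA⟩ := h
  refine hasELR_of_fintype (Fin 2) c (fun L L' => L 0 ≠ L' 0 ∧ A (L 1) (L' 1)) ?_
  rintro n G ⟨S, f, b, hG⟩
  obtain ⟨X, Y, hXY⟩ := exists_unitBall_approx hd f f b
  let g : Fin n → EuclideanSpace ℝ (Fin d) := fun v => if v ∈ S then X v else Y v
  let H : SimpleGraph (Fin n) :=
    { Adj := fun v w => v ≠ w ∧ dist (g v) (g w) ≤ 1
      symm := ⟨fun v w h => ⟨h.1.symm, by rw [dist_comm]; exact h.2⟩⟩
      loopless := ⟨fun v h => h.1 rfl⟩ }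
  obtain ⟨l, hl, hadj⟩ := hA n H ⟨g, fun v w hvw => ⟨fun h => h.2, fun h => ⟨hvw, h⟩⟩⟩
  refine ⟨fun v i => if i = 0 then (if v ∈ S then 1 else 0) else l v, ?_, ?_⟩
  · intro v i
    have b1 : 1 ≤ (n + 1) ^ c := Nat.one_le_pow _ _ (by omega)
    have b2 : n ^ c ≤ (n + 1) ^ c := Nat.pow_le_pow_left (by omega) c
    dsimp only
    split_ifs
    · exact b1
    · omega
    · exact (hl v).2.trans b2
  · intro v w hvw
    have e1 : A (l v) (l w) ↔ dist (g v) (g w) ≤ 1 := by
      rw [← hadj v w hvw]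
      exact ⟨fun h => h.2, fun h => ⟨hvw, h⟩⟩
    simp only [if_true, one_ne_zero, if_false]
    rw [e1, hG]
    by_cases hv : v ∈ S <;> by_cases hw : w ∈ S
    · simp [hv, hw]
    · have : dist (g v) (g w) ≤ 1 ↔ inner ℝ (f w) (f v) ≤ b w := by
        simp only [g, if_pos hv, if_neg hw]; exact hXY v w
      simp [hv, hw, this]
    · have : dist (g v) (g w) ≤ 1 ↔ inner ℝ (f v) (f w) ≤ b v := by
        simp only [g, if_pos hw, if_neg hv]; rw [dist_comm]; exact hXY w v
      simp [hv, hw, this]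
    · simp [hv, hw]

end Pool.Agent.Helper72.ELR
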