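import Mathlib
import Pool.Agent.Helper72.ELRHalf

/-!
# Unit ball graphs are complete for semialgebraic graphs
-/

namespace Pool.Agent.Helper72.ELR

/-- The class of semialgebraic graphs of a given description: every vertex `v` is given a point
`f v` of `ℝ^k`, and two distinct vertices `v`, `w` are adjacent iff a fixed Boolean combination `Φ`
of the `m` fixed polynomial inequalities `p i (f v, f w) ≤ 0` holds. -/
def SemialgebraicGraph {k m : ℕ} (p : Fin m → MvPolynomial (Fin k ⊕ Fin k) ℝ)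
    (Φ : (Fin m → Prop) → Prop) (n : ℕ) (G : SimpleGraph (Fin n)) : Prop :=
  ∃ f : Fin n → Fin k → ℝ, ∀ v w, v ≠ w →
    (G.Adj v w ↔ Φ (fun i => MvPolynomial.eval (Sum.elim (f v) (f w)) (p i) ≤ 0))

lemma exists_bilinear {k : ℕ} (p : MvPolynomial (Fin k ⊕ Fin k) ℝ) :
    ∃ (N : ℕ) (φ ψ : (Fin k → ℝ) → EuclideanSpace ℝ (Fin N)), ∀ x y,
      MvPolynomial.eval (Sum.elim x y) p = inner ℝ (ψ y) (φ x) := by
  classical
  let e := (Fintype.equivFin ↥p.support).symm
  refine ⟨Fintype.card ↥p.support,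
    fun x => WithLp.toLp 2 (fun j => p.coeff (e j).1 * ∏ i, x i ^ (e j).1 (Sum.inl i)),
    fun y => WithLp.toLp 2 (fun j => ∏ i, y i ^ (e j).1 (Sum.inr i)), fun x y => ?_⟩
  rw [MvPolynomial.eval_eq', PiLp.inner_apply]
  simp only [RCLike.inner_apply, conj_trivial]
  rw [← Finset.sum_coe_sort, ← e.sum_comp]
  refine Finset.sum_congr rfl (fun j _ => ?_)
  rw [Fintype.prod_sum_type]
  simp only [Sum.elim_inl, Sum.elim_inr]
  ring

lemma pointHalfspace_zero (h : HasELR (PointHalfspace 1)) : HasELR (PointHalfspace 0) := by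
  obtain ⟨A, hA, c, hc, hl⟩ := h
  refine ⟨A, hA, c, hc, ?_⟩
  rintro n G ⟨S, f, b, hG⟩
  refine hl n G ⟨S, fun _ => 0, b, fun v w => ?_⟩
  rw [hG v w]
  have h1 : ∀ v, f v = 0 := fun v => Subsingleton.elim _ _
  simp only [h1, inner_zero_left]

/-- Unit ball graphs of all dimensions are complete for semialgebraic graphs. -/
theorem semialgebraic_tfae :
    List.TFAE [∀ d : ℕ, 1 ≤ d → HasELR (UnitBall d),
      ∀ d : ℕ, HasELR (PointHalfspace d),
      ∀ (k m : ℕ) (p : Fin m → MvPolynomial (Fin k ⊕ Fin k) ℝ) (Φ : (Fin m → Prop) → Prop),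
        HasELR (SemialgebraicGraph p Φ)] := by
  tfae_have 1 → 2 := by
    intro h d
    rcases Nat.eq_zero_or_pos d with rfl | hd
    · exact pointHalfspace_zero (pointHalfspace_of_unitBall le_rfl (h 1 le_rfl))
    · exact pointHalfspace_of_unitBall hd (h d hd)
  tfae_have 2 → 3 := by
    intro h k m p Φ
    have h1 : ∀ i, ∃ (A : ℕ → ℕ → Prop) (C : ℕ), ∀ (n : ℕ) (f : Fin n → Fin k → ℝ),
        ∃ l l' : Fin n → ℕ, (∀ v, l v ≤ (n + 1) ^ C) ∧ (∀ v, l' v ≤ (n + 1) ^ C) ∧
        ∀ v w, A (l v) (l' w) ↔ MvPolynomial.eval (Sum.elim (f v) (f w)) (p i) ≤ 0 := by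
      intro i
      obtain ⟨N, φ, ψ, hφ⟩ := exists_bilinear (p i)
      obtain ⟨A, C, hA⟩ := labels_of_pointHalfspace (h N)
      refine ⟨A, C, fun n f => ?_⟩
      obtain ⟨l, l', hl, hl', hadj⟩ := hA n (fun v => φ (f v)) (fun v => ψ (f v)) (fun _ => 0)
      exact ⟨l, l', hl, hl', fun v w => by rw [hadj, hφ]⟩
    choose A C hA using h1
    refine hasELR_of_fintype (Fin m × Fin 2) (∑ i, C i)
      (fun L L' => Φ (fun i => A i (L (i, 0)) (L' (i, 1)))) ?_
    rintro n G ⟨f, hf⟩
    choose l l' hl hl' hadj using fun i => hA i n f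
    refine ⟨fun v i => if i.2 = 0 then l i.1 v else l' i.1 v, ?_, ?_⟩
    · intro v i
      have h2 : (n + 1) ^ C i.1 ≤ (n + 1) ^ (∑ i, C i) :=
        Nat.pow_le_pow_right (by omega)
          (Finset.single_le_sum (f := C) (fun _ _ => Nat.zero_le _) (Finset.mem_univ i.1))
      dsimp only
      split_ifs
      · exact (hl _ _).trans h2
      · exact (hl' _ _).trans h2
    · intro v w hvw
      rw [hf v w hvw]
      simp only [if_true, one_ne_zero, if_false]
      have : (fun i => MvPolynomial.eval (Sum.elim (f v) (f w)) (p i) ≤ 0) =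
          fun i => A i (l i v) (l' i w) := by
        funext i
        exact propext (hadj i v w).symm
      rw [this]
  tfae_have 3 → 1 := by
    intro h d hd
    let p : Fin 1 → MvPolynomial (Fin d ⊕ Fin d) ℝ := fun _ =>
      ∑ i : Fin d, (MvPolynomial.X (Sum.inl i) - MvPolynomial.X (Sum.inr i)) ^ 2 - 1
    obtain ⟨A, hA, c, hc, hl⟩ := h d 1 p (fun P => P 0)
    refine ⟨A, hA, c, hc, ?_⟩
    rintro n G ⟨f, hf⟩
    refine hl n G ⟨fun v => f v, fun v w hvw => ?_⟩
    rw [hf v w hvw]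
    simp only [p, map_sub, map_sum, map_pow, map_one, MvPolynomial.eval_X, Sum.elim_inl,
      Sum.elim_inr]
    rw [EuclideanSpace.dist_eq, Real.sqrt_le_iff]
    simp only [Real.dist_eq, sq_abs]
    constructor
    · rintro ⟨-, h⟩; linarith
    · intro h; exact ⟨zero_le_one, by linarith⟩
  tfae_finish

end Pool.Agent.Helper72.ELR
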