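import Mathlib
import Pool.Agent.Helper72.ELRBasic

/-!
# Unit ball graphs with all centres on a locally finite family of tame curves
-/

namespace Pool.Agent.Helper72.ELR

/-- A set of real numbers is a union of at most `r` intervals (order-convex sets; some may be
empty). -/
def IsUnionOfIntervals (r : ℕ) (T : Set ℝ) : Prop :=
  ∃ I : Fin r → Set ℝ, (∀ i, (I i).OrdConnected) ∧ T = ⋃ i, I i

/-- A parametrised curve `γ : ℝ → ℝ^d` is `r`-tame if it meets every closed unit ball in at most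
`r` parameter intervals. -/
def Tame {d : ℕ} (r : ℕ) (γ : ℝ → EuclideanSpace ℝ (Fin d)) : Prop :=
  ∀ x, IsUnionOfIntervals r {t | dist x (γ t) ≤ 1}

/-- Unit ball graphs with vertex set `Fin n` whose centres lie on `r`-tame curves (any number of
them) such that every unit ball about a centre contains centres from at most `k` of the curves:
the vertex `v` has its centre on the curve `γ (j v)`, at the parameter `t v`. -/
def CurveUnitBall (d r k n : ℕ) (G : SimpleGraph (Fin n)) : Prop :=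
  ∃ (γ : Fin n → ℝ → EuclideanSpace ℝ (Fin d)) (j : Fin n → Fin n) (t : Fin n → ℝ),
    (∀ i, Tame r (γ i)) ∧
    (∀ v w, v ≠ w → (G.Adj v w ↔ dist (γ (j v) (t v)) (γ (j w) (t w)) ≤ 1)) ∧
    ∀ v, {i | ∃ w, j w = i ∧ dist (γ (j v) (t v)) (γ i (t w)) ≤ 1}.ncard ≤ k

/-- ranks of reals with respect to the finite family `t` -/
lemma exists_rank {n : ℕ} (t : Fin n → ℝ) : ∃ ρ : Fin n → ℕ, (∀ v, ρ v ≤ n) ∧
    ∀ v w, ρ v ≤ ρ w ↔ t v ≤ t w := by
  classical
  refine ⟨fun v => (Finset.univ.filter (fun w => t w < t v)).card, ?_, ?_⟩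
  · intro v
    calc _ ≤ (Finset.univ : Finset (Fin n)).card := Finset.card_filter_le _ _
      _ = n := by simp
  · intro v w
    constructor
    · intro h
      by_contra h0
      rw [not_le] at h0
      have : (Finset.univ.filter (fun u => t u < t w)) ⊂
          (Finset.univ.filter (fun u => t u < t v)) := by
        rw [Finset.ssubset_iff_of_subset]
        · exact ⟨w, by simpa using h0, by simp⟩
        · intro u hu
          simp only [Finset.mem_filter, Finset.mem_univ, true_and] at hu ⊢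
          exact hu.trans h0
      exact absurd (Finset.card_lt_card this) (not_lt.2 h)
    · intro h
      apply Finset.card_le_card
      intro u hu
      simp only [Finset.mem_filter, Finset.mem_univ, true_and] at hu ⊢
      exact hu.trans_le h

lemma exists_interval {n : ℕ} {t : Fin n → ℝ} {ρ : Fin n → ℕ} (hρn : ∀ v, ρ v ≤ n)
    (hρ : ∀ v w, ρ v ≤ ρ w ↔ t v ≤ t w) {I : Set ℝ} (hI : I.OrdConnected) :
    ∃ a b : ℕ, a ≤ n + 1 ∧ b ≤ n ∧ ∀ v, t v ∈ I ↔ a ≤ ρ v ∧ ρ v ≤ b := by
  classical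
  by_cases hne : (Finset.univ.filter (fun v => t v ∈ I)).Nonempty
  · obtain ⟨x, hx, hxmin⟩ := Finset.exists_min_image _ ρ hne
    obtain ⟨y, hy, hymax⟩ := Finset.exists_max_image _ ρ hne
    simp only [Finset.mem_filter, Finset.mem_univ, true_and] at hx hy hxmin hymax
    refine ⟨ρ x, ρ y, (hρn x).trans (Nat.le_succ n), hρn y, fun v => ?_⟩
    constructor
    · exact fun hv => ⟨hxmin v hv, hymax v hv⟩
    · rintro ⟨h1, h2⟩
      exact hI.out hx hy ⟨(hρ _ _).1 h1, (hρ _ _).1 h2⟩
  · refine ⟨n + 1, 0, le_rfl, Nat.zero_le n, fun v => ?_⟩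
    constructor
    · intro hv
      exact absurd ⟨v, by simpa using hv⟩ hne
    · rintro ⟨h1, h2⟩
      omega

theorem curveUnitBall_hasELR (d r k : ℕ) : HasELR (CurveUnitBall d r k) := by
  classical
  -- label: own curve, own rank, and for each slot and each interval: curve, bounds
  refine hasELR_of_fintype (Fin 2 ⊕ (Fin k × Fin r × Fin 3)) 1
    (fun L L' => ∃ s i, L (Sum.inr (s, i, 0)) = L' (Sum.inl 0) ∧
      L (Sum.inr (s, i, 1)) ≤ L' (Sum.inl 1) ∧ L' (Sum.inl 1) ≤ L (Sum.inr (s, i, 2))) ?_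
  rintro n G ⟨γ, j, t, hγ, hG, hk⟩
  obtain ⟨ρ, hρn, hρ⟩ := exists_rank t
  -- the curves met by the ball of `v`
  have h1 : ∀ v, ∃ J : Fin k → ℕ, (∀ s, J s ≤ n) ∧
      ∀ i : Fin n, (∃ w, j w = i ∧ dist (γ (j v) (t v)) (γ i (t w)) ≤ 1) → ∃ s, J s = i := by
    intro v
    set Z := {i | ∃ w, j w = i ∧ dist (γ (j v) (t v)) (γ i (t w)) ≤ 1} with hZ
    have hfin : Z.Finite := Set.toFinite _
    let e := hfin.toFinset.equivFin
    have hcard : hfin.toFinset.card ≤ k := by
      rw [← Set.ncard_eq_toFinset_card Z hfin]; exact hk v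
    refine ⟨fun s => if h : s.val < hfin.toFinset.card then ((e.symm ⟨s, h⟩).1 : Fin n).val else n,
      ?_, ?_⟩
    · intro s
      dsimp only
      split_ifs
      · exact (Fin.is_lt _).le
      · exact le_rfl
    · intro i hi
      have hi' : i ∈ hfin.toFinset := by rw [Set.Finite.mem_toFinset]; exact hi
      refine ⟨⟨(e ⟨i, hi'⟩).val, (Fin.is_lt _).trans_le hcard⟩, ?_⟩
      dsimp only
      rw [dif_pos (Fin.is_lt _)]
      simp
  choose J hJn hJ using h1
  have h2 : ∀ v (i : Fin n), ∃ (a b : Fin r → ℕ), (∀ s, a s ≤ n + 1) ∧ (∀ s, b s ≤ n) ∧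
      ∀ w, dist (γ (j v) (t v)) (γ i (t w)) ≤ 1 ↔ ∃ s, a s ≤ ρ w ∧ ρ w ≤ b s := by
    intro v i
    obtain ⟨I, hI, hU⟩ := hγ i (γ (j v) (t v))
    choose a b ha hb hab using fun s => exists_interval hρn hρ (hI s)
    refine ⟨a, b, ha, hb, fun w => ?_⟩
    have : dist (γ (j v) (t v)) (γ i (t w)) ≤ 1 ↔ t w ∈ ⋃ i, I i := by
      rw [← hU]; exact Iff.rfl
    rw [this, Set.mem_iUnion]
    exact exists_congr (fun s => hab s w)
  choose a b ha hb hab using h2
  refine ⟨fun v x => match x with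
    | Sum.inl 0 => (j v).val
    | Sum.inl 1 => ρ v
    | Sum.inr (s, i, 0) => J v s
    | Sum.inr (s, i, 1) => if h : J v s < n then a v ⟨J v s, h⟩ i else 0
    | Sum.inr (s, i, 2) => if h : J v s < n then b v ⟨J v s, h⟩ i else 0, ?_, ?_⟩
  · intro v x
    rw [pow_one]
    match x with
    | Sum.inl 0 => exact (Fin.is_lt _).le.trans (Nat.le_succ n)
    | Sum.inl 1 => exact (hρn v).trans (Nat.le_succ n)
    | Sum.inr (s, i, 0) => exact (hJn v s).trans (Nat.le_succ n)
    | Sum.inr (s, i, 1) =>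
      dsimp only
      split_ifs
      · exact ha _ _ _
      · omega
    | Sum.inr (s, i, 2) =>
      dsimp only
      split_ifs
      · exact (hb _ _ _).trans (Nat.le_succ n)
      · omega
  · intro v w hvw
    rw [hG v w hvw]
    dsimp only
    constructor
    · intro hd
      obtain ⟨s, hs⟩ := hJ v (j w) ⟨w, rfl, hd⟩
      obtain ⟨i, hi1, hi2⟩ := (hab v (j w) w).1 hd
      refine ⟨s, i, hs, ?_, ?_⟩
      · have h3 : J v s < n := by rw [hs]; exact Fin.is_lt _
        rw [dif_pos h3]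
        have h4 : (⟨J v s, h3⟩ : Fin n) = j w := Fin.ext hs
        rw [h4]; exact hi1
      · have h3 : J v s < n := by rw [hs]; exact Fin.is_lt _
        rw [dif_pos h3]
        have h4 : (⟨J v s, h3⟩ : Fin n) = j w := Fin.ext hs
        rw [h4]; exact hi2
    · rintro ⟨s, i, hs, hi1, hi2⟩
      have h3 : J v s < n := by rw [hs]; exact Fin.is_lt _
      have h4 : (⟨J v s, h3⟩ : Fin n) = j w := Fin.ext hs
      rw [dif_pos h3, h4] at hi1 hi2
      exact (hab v (j w) w).2 ⟨i, hi1, hi2⟩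

end Pool.Agent.Helper72.ELR
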