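import Mathlib
import Pool.Agent.Helper72.ELRBasic

/-!
# Unit ball graphs: reduction to a local bipartite problem
-/

namespace Pool.Agent.Helper72.ELR

/-- Unit ball graphs with vertex set `Fin n` and with all the centres in `X`. -/
def UnitBallIn (d : ℕ) (X : Set (EuclideanSpace ℝ (Fin d))) (n : ℕ) (G : SimpleGraph (Fin n)) :
    Prop :=
  ∃ f : Fin n → EuclideanSpace ℝ (Fin d), (∀ v, f v ∈ X) ∧
    ∀ v w, v ≠ w → (G.Adj v w ↔ dist (f v) (f w) ≤ 1)

/-- Bipartite unit ball graphs with vertex set `Fin n`: the vertices of one side `S` have centres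
in `X`, those of the other side have centres in `Y`, and two vertices are adjacent iff they are
on different sides and their centres are at distance at most `1`. -/
def BipUnitBall (d : ℕ) (X Y : Set (EuclideanSpace ℝ (Fin d))) (n : ℕ)
    (G : SimpleGraph (Fin n)) : Prop :=
  ∃ (S : Set (Fin n)) (f : Fin n → EuclideanSpace ℝ (Fin d)),
    (∀ v ∈ S, f v ∈ X) ∧ (∀ v ∉ S, f v ∈ Y) ∧
    ∀ v w, v ≠ w → (G.Adj v w ↔ ((v ∈ S ↔ w ∉ S) ∧ dist (f v) (f w) ≤ 1))

section cells

variable {d : ℕ}

/-- the index of the grid cell (of side `h`) of a point -/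
noncomputable def cellIdx (h : ℝ) (x : EuclideanSpace ℝ (Fin d)) : Fin d → ℤ := fun i => ⌊x i / h⌋

/-- the centre of a grid cell -/
noncomputable def cellCtr (h : ℝ) (z : Fin d → ℤ) : EuclideanSpace ℝ (Fin d) :=
  WithLp.toLp 2 (fun i => h * ((z i : ℝ) + 1 / 2))

/-- the vector of an offset -/
noncomputable def offVec (h : ℝ) (o : Fin d → ℤ) : EuclideanSpace ℝ (Fin d) :=
  WithLp.toLp 2 (fun i => h * (o i : ℝ))

lemma cellCtr_add (h : ℝ) (z o : Fin d → ℤ) :
    cellCtr h (z + o) - cellCtr h z = offVec h o := by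
  ext i
  simp [cellCtr, offVec]
  ring

lemma dist_cellCtr_le {h ρ : ℝ} (hh : 0 < h) (hρ : 0 ≤ ρ) (hd : (d : ℝ) * h ^ 2 ≤ 4 * ρ ^ 2)
    (x : EuclideanSpace ℝ (Fin d)) : dist x (cellCtr h (cellIdx h x)) ≤ ρ := by
  rw [EuclideanSpace.dist_eq]
  apply Real.sqrt_le_iff.2
  refine ⟨hρ, ?_⟩
  have h1 : ∀ i : Fin d, dist (x i) ((cellCtr h (cellIdx h x)) i) ^ 2 ≤ h ^ 2 / 4 := by
    intro i
    rw [Real.dist_eq, sq_abs]
    have h2 : (⌊x i / h⌋ : ℝ) ≤ x i / h := Int.floor_le _
    have h3 : x i / h < ⌊x i / h⌋ + 1 := Int.lt_floor_add_one _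
    have h4 : h * (x i / h) = x i := by field_simp
    have h5 : (cellCtr h (cellIdx h x)) i = h * ((⌊x i / h⌋ : ℝ) + 1 / 2) := rfl
    rw [h5]
    set k : ℝ := (⌊x i / h⌋ : ℝ)
    have h6 : h * k ≤ x i := by rw [← h4]; exact mul_le_mul_of_nonneg_left h2 hh.le
    have h7 : x i ≤ h * (k + 1) := by
      rw [← h4]; exact mul_le_mul_of_nonneg_left h3.le hh.le
    have h8 : |x i - h * (k + 1 / 2)| ≤ h / 2 := by
      rw [abs_le]; constructor <;> linarith
    calc (x i - h * (k + 1 / 2)) ^ 2 = |x i - h * (k + 1 / 2)| ^ 2 := (sq_abs _).symm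
      _ ≤ (h / 2) ^ 2 := by gcongr
      _ = h ^ 2 / 4 := by ring
  calc ∑ i, dist (x i) ((cellCtr h (cellIdx h x)) i) ^ 2 ≤ ∑ _i : Fin d, h ^ 2 / 4 :=
        Finset.sum_le_sum (fun i _ => h1 i)
    _ = d * (h ^ 2 / 4) := by simp
    _ ≤ ρ ^ 2 := by linarith

lemma abs_cellIdx_sub_le {h : ℝ} (hh : 0 < h) {x y : EuclideanSpace ℝ (Fin d)} (hxy : dist x y ≤ 1) (i : Fin d) :
    |cellIdx h y i - cellIdx h x i| ≤ ⌈1 / h⌉ + 1 := by
  have h1 : |y i - x i| ≤ 1 := by
    have h2 : ‖(y - x) i‖ ≤ ‖y - x‖ := PiLp.norm_apply_le (y - x) i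
    rw [← dist_eq_norm, dist_comm] at h2
    simpa using h2.trans hxy
  have h3 : |y i / h - x i / h| ≤ 1 / h := by
    rw [← sub_div, abs_div, abs_of_pos hh]
    exact div_le_div_of_nonneg_right h1 hh.le
  have a1 := Int.floor_le (x i / h)
  have a2 := Int.lt_floor_add_one (x i / h)
  have a3 := Int.floor_le (y i / h)
  have a4 := Int.lt_floor_add_one (y i / h)
  have a5 := Int.le_ceil (1 / h)
  rw [abs_le] at h3
  rw [abs_le]
  have b1 : (⌊y i / h⌋ : ℝ) - ⌊x i / h⌋ < ⌈1 / h⌉ + 1 := by linarith
  have b2 : -((⌈1 / h⌉ : ℝ) + 1) < (⌊y i / h⌋ : ℝ) - ⌊x i / h⌋ := by linarith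
  constructor
  · have : (-((⌈1 / h⌉ : ℤ) + 1)) < ⌊y i / h⌋ - ⌊x i / h⌋ := by exact_mod_cast b2
    exact this.le
  · have : ⌊y i / h⌋ - ⌊x i / h⌋ < (⌈1 / h⌉ : ℤ) + 1 := by exact_mod_cast b1
    exact this.le

/-- An isometry moving `a` to `p` and `b` to the point at the same distance in direction
`q - p`. -/
lemma exists_isometry {a b p q : EuclideanSpace ℝ (Fin d)} (hab : 0 < dist a b) (hpq : dist p q = 1) :
    ∃ T : EuclideanSpace ℝ (Fin d) → EuclideanSpace ℝ (Fin d), Isometry T ∧ T a = p ∧ T b = p + dist a b • (q - p) := by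
  set u : EuclideanSpace ℝ (Fin d) := (dist a b)⁻¹ • (b - a) with hu
  have hu1 : ‖u‖ = 1 := by
    rw [hu, norm_smul, norm_inv, Real.norm_of_nonneg dist_nonneg, ← dist_eq_norm, dist_comm b a]
    exact inv_mul_cancel₀ hab.ne'
  have hq1 : ‖q - p‖ = 1 := by rw [← dist_eq_norm, dist_comm]; exact hpq
  let Φ := (Submodule.span ℝ {u - (q - p)})ᗮ.reflection
  have hΦ : Φ u = q - p := Submodule.reflection_sub (by rw [hu1, hq1])
  refine ⟨fun x => p + Φ (x - a), ?_, by simp, ?_⟩
  · intro x y
    simp only [edist_add_left]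
    rw [LinearIsometryEquiv.edist_map, edist_sub_right]
  · have : b - a = dist a b • u := by
      rw [hu, smul_smul, mul_inv_cancel₀ hab.ne', one_smul]
    show p + Φ (b - a) = _
    rw [this, map_smul, hΦ]

end cells

/-- The main reduction. -/
theorem local_reduction (d : ℕ) (X Y : Set (EuclideanSpace ℝ (Fin d)))
    {p q : EuclideanSpace ℝ (Fin d)} (hp : p ∈ interior X) (hq : q ∈ interior Y)
    (hpq : dist p q = 1) (hE : HasELR (BipUnitBall d X Y)) : HasELR (UnitBall d) := by
  classical
  obtain ⟨A, hAsymm, c, hc, hA⟩ := hE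
  obtain ⟨δ₁, hδ₁, hX⟩ := Metric.isOpen_iff.1 isOpen_interior p hp
  obtain ⟨δ₂, hδ₂, hY⟩ := Metric.isOpen_iff.1 isOpen_interior q hq
  obtain ⟨ρ, hρ0, hρ1, hρ2, hρ3⟩ : ∃ ρ : ℝ, 0 < ρ ∧ 4 * ρ ≤ 1 ∧ 3 * ρ < δ₁ ∧ 3 * ρ < δ₂ := by
    refine ⟨min (1 / 4) (min (δ₁ / 4) (δ₂ / 4)), by positivity, ?_, ?_, ?_⟩
    · have := min_le_left (1 / 4) (min (δ₁ / 4) (δ₂ / 4)); linarith
    · have := (min_le_right (1 / 4) (min (δ₁ / 4) (δ₂ / 4))).trans (min_le_left _ _); linarith
    · have := (min_le_right (1 / 4) (min (δ₁ / 4) (δ₂ / 4))).trans (min_le_right _ _); linarith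
  have hXp : ∀ x, dist x p ≤ 3 * ρ → x ∈ X := fun x hx =>
    interior_subset (hX (Metric.mem_ball.2 (by linarith)))
  have hYq : ∀ x, dist x q ≤ 3 * ρ → x ∈ Y := fun x hx =>
    interior_subset (hY (Metric.mem_ball.2 (by linarith)))
  -- the side of the grid
  obtain ⟨h, hh, hdh⟩ : ∃ h : ℝ, 0 < h ∧ (d : ℝ) * h ^ 2 ≤ 4 * ρ ^ 2 := by
    refine ⟨ρ / (d + 1), by positivity, ?_⟩
    rw [div_pow, mul_div_assoc', div_le_iff₀ (by positivity)]
    have : (d : ℝ) ≤ 4 * (d + 1) ^ 2 := by
      have : (0 : ℝ) ≤ d := by positivity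
      nlinarith
    have h2 : 0 < ρ ^ 2 := by positivity
    nlinarith
  set M : ℤ := ⌈1 / h⌉ + 1 with hM
  let O : Finset (Fin d → ℤ) := Fintype.piFinset (fun _ => Finset.Icc (-M) M)
  let r : (Fin d → ℤ) → ℝ := fun o => ‖(offVec h o : EuclideanSpace ℝ (Fin d))‖
  refine hasELR_of_fintype (Option (↥O × Fin 3)) c
    (fun L L' => L none = L' none ∨ ∃ o : ↥O, L (some (o, 0)) = L' none ∧
      (r o + 2 * ρ ≤ 1 ∨ |r o - 1| ≤ 2 * ρ ∧ A (L (some (o, 1))) (L' (some (o, 2))))) ?_
  rintro n G ⟨f, hf⟩
  -- cells of vertices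
  let zc : Fin n → (Fin d → ℤ) := fun v => cellIdx h (f v)
  have hzc : ∀ v, dist (f v) (cellCtr h (zc v)) ≤ ρ := fun v => dist_cellCtr_le hh hρ0.le hdh _
  -- identifiers
  let id : (Fin d → ℤ) → ℕ := fun z => if hz : ∃ v, zc v = z then (Classical.choose hz : Fin n).val
    else n
  have hid_le : ∀ z, id z ≤ n := by
    intro z
    simp only [id]
    split_ifs with hz
    · exact (Classical.choose hz).2.le
    · exact le_rfl
  have hid : ∀ v z, id (zc v) = id z → z = zc v := by
    intro v z hvz
    have h1 : ∃ v', zc v' = zc v := ⟨v, rfl⟩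
    have h2 : id (zc v) = (Classical.choose h1 : Fin n).val := by
      simp only [id]; rw [dif_pos h1]
    have h3 : zc (Classical.choose h1) = zc v := Classical.choose_spec h1
    by_cases hz : ∃ v', zc v' = z
    · have h4 : id z = (Classical.choose hz : Fin n).val := by
        simp only [id]; rw [dif_pos hz]
      have h5 : zc (Classical.choose hz) = z := Classical.choose_spec hz
      have h6 : Classical.choose h1 = Classical.choose hz := Fin.ext (by omega)
      rw [← h3, ← h5, h6]
    · have h4 : id z = n := by simp only [id]; rw [dif_neg hz]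
      have := (Classical.choose h1).2
      omega
  -- distances versus offsets
  have hdist1 : ∀ v w (z o : Fin d → ℤ), zc v = z → zc w = z + o →
      dist (f v) (f w) ≤ r o + 2 * ρ := by
    intro v w z o hv hw
    have h1 := hzc v
    have h2 := hzc w
    rw [hv] at h1
    rw [hw] at h2
    have h3 : dist (cellCtr h z) (cellCtr h (z + o)) = r o := by
      rw [dist_comm, dist_eq_norm, cellCtr_add]
    have h4 := dist_triangle4 (f v) (cellCtr h z) (cellCtr h (z + o)) (f w)
    rw [dist_comm (f w)] at h2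
    linarith
  have hdist2 : ∀ v w (z o : Fin d → ℤ), zc v = z → zc w = z + o →
      r o ≤ dist (f v) (f w) + 2 * ρ := by
    intro v w z o hv hw
    have h1 := hzc v
    have h2 := hzc w
    rw [hv] at h1
    rw [hw] at h2
    have h3 : dist (cellCtr h z) (cellCtr h (z + o)) = r o := by
      rw [dist_comm, dist_eq_norm, cellCtr_add]
    have h4 := dist_triangle4 (cellCtr h z) (f v) (f w) (cellCtr h (z + o))
    rw [dist_comm (f v)] at h1
    linarith
  -- local labellings
  have hloc : ∀ (z o : Fin d → ℤ), ∃ l : Fin n → ℕ, (∀ v, l v ≤ n ^ c) ∧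
      (|r o - 1| ≤ 2 * ρ → ∀ v w, zc v = z → zc w = z + o →
        (A (l v) (l w) ↔ dist (f v) (f w) ≤ 1)) := by
    intro z o
    by_cases hcrit : |r o - 1| ≤ 2 * ρ
    · have hr0 : 0 < r o := by
        rw [abs_le] at hcrit
        linarith [hcrit.1]
      have hr : dist (cellCtr h z) (cellCtr h (z + o)) = r o := by
        rw [dist_comm, dist_eq_norm, cellCtr_add]
      obtain ⟨T, hT, hTa, hTb⟩ := exists_isometry (a := cellCtr h z) (b := cellCtr h (z + o))
        (p := p) (q := q) (by rw [hr]; exact hr0) hpq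
      rw [hr] at hTb
      have ho : z + o ≠ z := by
        intro h0
        rw [h0, dist_self] at hr
        linarith
      let S : Set (Fin n) := {v | zc v ≠ z + o}
      let g : Fin n → EuclideanSpace ℝ (Fin d) := fun v =>
        if zc v = z + o then T (f v) else if zc v = z then T (f v) else p
      let H : SimpleGraph (Fin n) :=
        { Adj := fun v w => v ≠ w ∧ ((v ∈ S ↔ w ∉ S) ∧ dist (g v) (g w) ≤ 1)
          symm := by
            constructor
            rintro v w ⟨h1, h2, h3⟩
            refine ⟨h1.symm, ?_, by rw [dist_comm]; exact h3⟩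
            tauto
          loopless := ⟨fun v h => h.1 rfl⟩ }
      have hH : BipUnitBall d X Y n H := by
        refine ⟨S, g, ?_, ?_, ?_⟩
        · intro v hv
          have hv' : zc v ≠ z + o := hv
          simp only [g, if_neg hv']
          split_ifs with hz
          · apply hXp
            rw [← hTa, hT.dist_eq]
            have := hzc v
            rw [hz] at this
            linarith
          · apply hXp; rw [dist_self]; positivity
        · intro v hv
          have hv' : zc v = z + o := by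
            by_contra h0; exact hv h0
          simp only [g, if_pos hv']
          apply hYq
          have h1 : dist (T (f v)) (T (cellCtr h (z + o))) ≤ ρ := by
            rw [hT.dist_eq, ← hv']; exact hzc v
          have h2 : dist (T (cellCtr h (z + o))) q ≤ 2 * ρ := by
            rw [hTb, dist_eq_norm]
            have : p + r o • (q - p) - q = (r o - 1) • (q - p) := by
              module
            have h5 : ‖q - p‖ = 1 := by rw [← dist_eq_norm, dist_comm]; exact hpq
            rw [this, norm_smul, h5, mul_one, Real.norm_eq_abs]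
            exact hcrit
          have := dist_triangle (T (f v)) (T (cellCtr h (z + o))) q
          linarith
        · intro v w hvw
          constructor
          · exact fun h => h.2
          · exact fun h => ⟨hvw, h⟩
      obtain ⟨l, hl, hadj⟩ := hA n H hH
      refine ⟨l, fun v => (hl v).2, fun _ v w hv hw => ?_⟩
      have hvw : v ≠ w := by
        rintro rfl
        exact ho (hw.symm.trans hv)
      rw [← hadj v w hvw]
      have hvS : v ∈ S := by
        show zc v ≠ z + o
        rw [hv]; exact ho.symm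
      have hwS : w ∉ S := by
        intro h0; exact h0 hw
      have hgv : g v = T (f v) := by
        simp only [g]
        rw [if_neg (by rw [hv]; exact ho.symm), if_pos hv]
      have hgw : g w = T (f w) := by
        simp only [g]
        rw [if_pos hw]
      constructor
      · rintro ⟨-, -, h3⟩
        rw [hgv, hgw, hT.dist_eq] at h3
        exact h3
      · intro h3
        refine ⟨hvw, ⟨fun _ => hwS, fun _ => hvS⟩, ?_⟩
        rw [hgv, hgw, hT.dist_eq]
        exact h3
    · exact ⟨fun _ => 0, fun _ => Nat.zero_le _, fun h0 => absurd h0 hcrit⟩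
  choose loc hloc1 hloc2 using hloc
  refine ⟨fun v i => match i with
    | none => id (zc v)
    | some (o, 0) => id (zc v + o)
    | some (o, 1) => loc (zc v) o v
    | some (o, 2) => loc (zc v - o) o v, ?_, ?_⟩
  · intro v i
    have b1 : n ≤ (n + 1) ^ c := by
      calc n ≤ n + 1 := by omega
        _ = (n + 1) ^ 1 := (pow_one _).symm
        _ ≤ (n + 1) ^ c := Nat.pow_le_pow_right (by omega) hc
    have b2 : n ^ c ≤ (n + 1) ^ c := Nat.pow_le_pow_left (by omega) c
    match i with
    | none => exact (hid_le _).trans b1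
    | some (o, 0) => exact (hid_le _).trans b1
    | some (o, 1) => exact (hloc1 _ _ _).trans b2
    | some (o, 2) => exact (hloc1 _ _ _).trans b2
  · intro v w hvw
    rw [hf v w hvw]
    simp only
    constructor
    · intro hd1
      by_cases hz : zc w = zc v
      · left; rw [hz]
      · right
        have hoO : zc w - zc v ∈ O := by
          rw [Fintype.mem_piFinset]
          intro i
          rw [Finset.mem_Icc, ← abs_le]
          exact abs_cellIdx_sub_le hh hd1 i
        have hzw : zc w = zc v + (zc w - zc v) := by abel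
        refine ⟨⟨zc w - zc v, hoO⟩, ?_, ?_⟩
        · rw [← hzw]
        · have h2 := hdist2 v w (zc v) (zc w - zc v) rfl hzw
          by_cases hr : r (zc w - zc v) + 2 * ρ ≤ 1
          · left; exact hr
          · right
            have hcrit : |r (zc w - zc v) - 1| ≤ 2 * ρ := by
              rw [abs_le]; constructor <;> linarith
            refine ⟨hcrit, ?_⟩
            have h3 := (hloc2 (zc v) (zc w - zc v) hcrit v w rfl hzw).2 hd1
            have h4 : zc w - (zc w - zc v) = zc v := by abel
            show A (loc (zc v) (zc w - zc v) v) (loc (zc w - (zc w - zc v)) (zc w - zc v) w)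
            rw [h4]
            exact h3
    · rintro (hid0 | ⟨⟨o, ho⟩, hid0, hcases⟩)
      · have hz : zc w = zc v := hid v _ hid0
        have h1 := hzc v
        have h2 := hzc w
        rw [hz, dist_comm] at h2
        have := dist_triangle (f v) (cellCtr h (zc v)) (f w)
        linarith
      · have hz : zc w = zc v + o := (hid w _ hid0.symm).symm
        rcases hcases with hr | ⟨hcrit, hAA⟩
        · have h1 := hdist1 v w (zc v) o rfl hz
          simp only at hr
          linarith
        · have h4 : zc w - o = zc v := by rw [hz]; abel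
          simp only at hAA
          rw [h4] at hAA
          exact (hloc2 (zc v) o hcrit v w rfl hz).1 hAA

end Pool.Agent.Helper72.ELR
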