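import Mathlib
import Pool.Agent.Helper72.ELRCurves

/-!
# Rational curves are tame
-/

namespace Pool.Agent.Helper72.ELR

open Polynomial

lemma isUnionOfIntervals_of_fintype {r : ℕ} {ι : Type*} [Fintype ι] (hr : Fintype.card ι ≤ r)
    {T : Set ℝ} (I : ι → Set ℝ) (hI : ∀ i, (I i).OrdConnected) (hT : T = ⋃ i, I i) :
    IsUnionOfIntervals r T := by
  classical
  let e := Fintype.equivFin ι
  refine ⟨fun s => if h : s.val < Fintype.card ι then I (e.symm ⟨s, h⟩) else ∅, ?_, ?_⟩
  · intro s
    dsimp only
    split_ifs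
    · exact hI _
    · exact Set.ordConnected_empty
  · rw [hT]
    ext x
    simp only [Set.mem_iUnion]
    constructor
    · rintro ⟨i, hi⟩
      refine ⟨⟨(e i).val, (e i).2.trans_le hr⟩, ?_⟩
      rw [dif_pos (e i).2]
      simpa using hi
    · rintro ⟨s, hs⟩
      split_ifs at hs with h
      · exact ⟨_, hs⟩
      · exact absurd hs (Set.notMem_empty x)

/-- The solution set of a polynomial inequality of degree at most `m` is a union of at most
`2 m + 2` intervals. -/
lemma isUnionOfIntervals_poly (F : ℝ[X]) (m : ℕ) (hF : F.natDegree ≤ m) :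
    IsUnionOfIntervals (2 * m + 2) {t | F.eval t ≤ 0} := by
  classical
  by_cases hF0 : F = 0
  · refine isUnionOfIntervals_of_fintype (ι := Unit) (by simp) (fun _ => Set.univ)
      (fun _ => Set.ordConnected_univ) ?_
    ext x; simp [hF0]
  set R := F.roots.toFinset with hR
  have hRm : R.card ≤ m := (Multiset.toFinset_card_le _).trans ((card_roots' F).trans hF)
  have hroot : ∀ x, x ∈ R ↔ F.eval x = 0 := by
    intro x
    rw [hR, Multiset.mem_toFinset, mem_roots hF0, IsRoot.def]
  refine isUnionOfIntervals_of_fintype (ι := Fin (m + 1) × Bool) (by simp; omega)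
    (fun i => {t | (R.filter (· < t)).card = i.1 ∧ (t ∈ R ↔ i.2 = true) ∧ F.eval t ≤ 0}) ?_ ?_
  · rintro ⟨i, b⟩
    constructor
    rintro x ⟨hx1, hx2, hx3⟩ y ⟨hy1, hy2, hy3⟩ z ⟨hxz, hzy⟩
    -- no roots in `[x, y)`
    have hno : ∀ u, x ≤ u → u < y → u ∉ R := by
      intro u hxu huy huR
      have : (R.filter (· < x)) ⊂ (R.filter (· < y)) := by
        rw [Finset.ssubset_iff_of_subset]
        · exact ⟨u, by simp [huR, huy], by simp [hxu]⟩
        · intro s hs
          simp only [Finset.mem_filter] at hs ⊢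
          exact ⟨hs.1, hs.2.trans (hxu.trans_lt huy)⟩
      have := Finset.card_lt_card this
      simp only at hx1 hy1
      omega
    rcases hxz.eq_or_lt with rfl | hxz'
    · exact ⟨hx1, hx2, hx3⟩
    rcases hzy.eq_or_lt with rfl | hzy'
    · exact ⟨hy1, hy2, hy3⟩
    have hxR : x ∉ R := hno x le_rfl (hxz'.trans hzy')
    have hb : b = false := by
      rcases b with _ | _
      · rfl
      · exact absurd (hx2.2 rfl) hxR
    subst hb
    have hzR : z ∉ R := hno z hxz'.le hzy'
    refine ⟨?_, ?_, ?_⟩
    · have h1 : (R.filter (· < x)).card ≤ (R.filter (· < z)).card :=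
        Finset.card_le_card (fun s hs => by
          simp only [Finset.mem_filter] at hs ⊢; exact ⟨hs.1, hs.2.trans hxz'⟩)
      have h2 : (R.filter (· < z)).card ≤ (R.filter (· < y)).card :=
        Finset.card_le_card (fun s hs => by
          simp only [Finset.mem_filter] at hs ⊢; exact ⟨hs.1, hs.2.trans hzy'⟩)
      simp only at hx1 hy1 ⊢
      omega
    · simp [hzR]
    · by_contra h0
      rw [not_le] at h0
      have hcont : ContinuousOn (fun t => F.eval t) (Set.Icc x z) := F.continuous.continuousOn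
      have hx4 : F.eval x < 0 := lt_of_le_of_ne hx3 (fun h => hxR ((hroot x).2 h))
      obtain ⟨u, ⟨hu1, hu2⟩, hu3⟩ := intermediate_value_Icc hxz'.le hcont ⟨hx4.le, h0.le⟩
      exact hno u hu1 (hu2.trans_lt hzy') ((hroot u).2 hu3)
  · ext t
    simp only [Set.mem_iUnion]
    constructor
    · intro ht
      refine ⟨(⟨(R.filter (· < t)).card, ?_⟩, decide (t ∈ R)), rfl, by simp, ht⟩
      have := Finset.card_filter_le R (· < t)
      omega
    · rintro ⟨i, -, -, h⟩
      exact h

/-- Rational curves `t ↦ (P i (t) / q (t))_i` of degree at most `D` without poles are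
`(4 D + 2)`-tame. -/
theorem rational_tame {d : ℕ} (D : ℕ) (P : Fin d → ℝ[X]) (q : ℝ[X])
    (hP : ∀ i, (P i).natDegree ≤ D) (hq : q.natDegree ≤ D) (hq0 : ∀ t, q.eval t ≠ 0) :
    Tame (4 * D + 2) (fun t => (WithLp.toLp 2 (fun i => (P i).eval t / q.eval t) :
      EuclideanSpace ℝ (Fin d))) := by
  intro x
  set F : ℝ[X] := ∑ i, (C (x i) * q - P i) ^ 2 - q ^ 2 with hF
  have hdeg : F.natDegree ≤ 2 * D := by
    rw [hF]
    refine (natDegree_sub_le _ _).trans (max_le ?_ ?_)
    · apply natDegree_sum_le_of_forall_le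
      intro i _
      refine natDegree_pow_le.trans ?_
      have h1 : (C (x i) * q - P i).natDegree ≤ D :=
        (natDegree_sub_le _ _).trans (max_le ((natDegree_C_mul_le _ _).trans hq) (hP i))
      omega
    · refine natDegree_pow_le.trans ?_
      omega
  have hset : {t | dist x (WithLp.toLp 2 (fun i => (P i).eval t / q.eval t) :
      EuclideanSpace ℝ (Fin d)) ≤ 1} = {t | F.eval t ≤ 0} := by
    ext t
    show dist x _ ≤ 1 ↔ F.eval t ≤ 0
    rw [EuclideanSpace.dist_eq, Real.sqrt_le_iff]
    simp only [Real.dist_eq, sq_abs]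
    have h2 : 0 < (q.eval t) ^ 2 := by have := hq0 t; positivity
    have h3 : F.eval t = (q.eval t) ^ 2 *
        (∑ i, (x i - (P i).eval t / q.eval t) ^ 2 - 1) := by
      rw [hF]
      simp only [eval_sub, eval_finsetSum, eval_pow, eval_mul, eval_C]
      rw [mul_sub, Finset.mul_sum, mul_one]
      congr 1
      refine Finset.sum_congr rfl (fun i _ => ?_)
      have := hq0 t
      field_simp
    rw [h3]
    constructor
    · rintro ⟨-, h⟩
      exact mul_nonpos_of_nonneg_of_nonpos h2.le (by linarith)
    · intro h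
      refine ⟨zero_le_one, ?_⟩
      by_contra h0
      rw [not_le] at h0
      exact absurd h (not_le.2 (mul_pos h2 (by linarith)))
  rw [hset]
  have := isUnionOfIntervals_poly F (2 * D) hdeg
  have h4 : 2 * (2 * D) + 2 = 4 * D + 2 := by ring
  rw [h4] at this
  exact this

end Pool.Agent.Helper72.ELR
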