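import Mathlib

open Set Topology

namespace Pool.Agent.Helper72

/-- A continuous function on the line all of whose values have the same exponential is constant. -/
lemma const_of_exp_const {h : ℝ → ℂ} (hc : Continuous h) {c : ℂ}
    (he : ∀ x, Complex.exp (h x) = c) (x y : ℝ) : h x = h y := by
  have hpi : (2 * Real.pi * Complex.I : ℂ) ≠ 0 := by
    simp [Real.pi_ne_zero]
  have key : ∀ x, ∃ n : ℤ, h x = h 0 + n * (2 * Real.pi * Complex.I) := by
    intro x
    exact Complex.exp_eq_exp_iff_exists_int.1 ((he x).trans (he 0).symm)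
  choose n hn using key
  have hn' : ∀ x, ((n x : ℤ) : ℝ) = ((h x - h 0) / (2 * Real.pi * Complex.I)).re := by
    intro x
    rw [hn x]
    rw [add_sub_cancel_left, mul_div_assoc, div_self hpi, mul_one]
    simp
  have hcn : Continuous n := by
    rw [Int.isClosedEmbedding_coe_real.isInducing.continuous_iff]
    have : (Int.cast ∘ n : ℝ → ℝ) = fun x => ((h x - h 0) / (2 * Real.pi * Complex.I)).re := by
      funext x
      exact hn' x
    rw [this]
    exact Complex.continuous_re.comp ((hc.sub continuous_const).div_const _)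
  have : n x = n y := PreconnectedSpace.constant inferInstance hcn
  rw [hn x, hn y, this]

/-- The topological core: a homotopy from an even loop to an odd loop must vanish somewhere. -/
lemma exists_zero_of_even_odd (G : ℝ × ℝ → ℂ) (hG : Continuous G)
    (hper : ∀ t θ, G (t, θ + 2 * Real.pi) = G (t, θ))
    (heven : ∀ θ, G (0, θ + Real.pi) = G (0, θ))
    (hodd : ∀ θ, G (1, θ + Real.pi) = - G (1, θ)) :
    ∃ p, G p = 0 := by
  by_contra hne
  push Not at hne
  have hsc : IsSimplyConnected (univ : Set (ℝ × ℝ)) := by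
    have : ContractibleSpace (univ : Set (ℝ × ℝ)) :=
      convex_univ.contractibleSpace univ_nonempty
    exact SimplyConnectedSpace.ofContractible _
  obtain ⟨f, hf, hfe⟩ := Complex.exists_continuousOn_eqOn_exp_comp (U := (univ : Set (ℝ × ℝ)))
    hsc isOpen_univ (g := G) hG.continuousOn (by
      rintro ⟨p, -, hp⟩
      exact hne p hp)
  rw [continuousOn_univ] at hf
  have hfe' : ∀ p, Complex.exp (f p) = G p := fun p => hfe (mem_univ p)
  -- total change along the loops
  have hD : ∀ t : ℝ, f (t, 0 + 2 * Real.pi) - f (t, 0) = f (0, 0 + 2 * Real.pi) - f (0, 0) := by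
    intro t
    refine const_of_exp_const (h := fun t : ℝ => f (t, 0 + 2 * Real.pi) - f (t, 0))
      (c := 1) (by fun_prop) ?_ t 0
    intro s
    rw [Complex.exp_sub, hfe', hfe', hper, div_self (hne _)]
  have hE : ∀ θ : ℝ, f (0, θ + Real.pi) - f (0, θ) = f (0, 0 + Real.pi) - f (0, 0) := by
    intro θ
    refine const_of_exp_const (h := fun θ : ℝ => f (0, θ + Real.pi) - f (0, θ))
      (c := 1) (by fun_prop) ?_ θ 0
    intro s
    rw [Complex.exp_sub, hfe', hfe', heven, div_self (hne _)]
  have hF : ∀ θ : ℝ, f (1, θ + Real.pi) - f (1, θ) = f (1, 0 + Real.pi) - f (1, 0) := by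
    intro θ
    refine const_of_exp_const (h := fun θ : ℝ => f (1, θ + Real.pi) - f (1, θ))
      (c := -1) (by fun_prop) ?_ θ 0
    intro s
    rw [Complex.exp_sub, hfe', hfe', hodd, neg_div, div_self (hne _)]
  obtain ⟨k, hk⟩ : ∃ k : ℤ, f (0, 0 + Real.pi) - f (0, 0) = k * (2 * Real.pi * Complex.I) := by
    rw [← Complex.exp_eq_one_iff, Complex.exp_sub, hfe', hfe', heven, div_self (hne _)]
  obtain ⟨m, hm⟩ : ∃ m : ℤ, f (1, 0 + Real.pi) - f (1, 0) - Real.pi * Complex.I
      = m * (2 * Real.pi * Complex.I) := by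
    rw [← Complex.exp_eq_one_iff, Complex.exp_sub, Complex.exp_sub, hfe', hfe', hodd, neg_div,
      div_self (hne _), Complex.exp_pi_mul_I, div_self (by norm_num)]
  have h1 := hD 1
  have h2 := hE Real.pi
  have h3 := hF Real.pi
  have e0 : (0 : ℝ) + 2 * Real.pi = Real.pi + Real.pi := by ring
  rw [e0] at h1
  rw [zero_add] at h2 h3 hk hm
  have hpi : (Real.pi * Complex.I : ℂ) ≠ 0 := by
    simp [Real.pi_ne_zero]
  have hfin : ((2 * (2 * k) : ℤ) : ℂ) * (Real.pi * Complex.I)
      = ((2 * (1 + 2 * m) : ℤ) : ℂ) * (Real.pi * Complex.I) := by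
    push_cast
    linear_combination -h1 - h2 + h3 - 2 * hk + 2 * hm
  have := mul_right_cancel₀ hpi hfin
  have : 2 * (2 * k) = 2 * (1 + 2 * m) := by exact_mod_cast this
  omega

end Pool.Agent.Helper72
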