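import Mathlib
import Pool.Agent.Helper72.Winding

open Set Topology MeasureTheory Filter
open scoped ENNReal

namespace Pool.Agent.Helper72

/-- The Euclidean plane. -/
abbrev Plane := EuclideanSpace ℝ (Fin 2)

/-- First rotated coordinate. -/
noncomputable def ca (θ : ℝ) (x : Plane) : ℝ := x 0 * Real.cos θ + x 1 * Real.sin θ

/-- Second rotated coordinate. -/
noncomputable def cb (θ : ℝ) (x : Plane) : ℝ := x 1 * Real.cos θ - x 0 * Real.sin θ

lemma ca_add_pi (θ : ℝ) (x : Plane) : ca (θ + Real.pi) x = - ca θ x := by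
  simp only [ca, Real.cos_add_pi, Real.sin_add_pi]; ring

lemma cb_add_pi (θ : ℝ) (x : Plane) : cb (θ + Real.pi) x = - cb θ x := by
  simp only [cb, Real.cos_add_pi, Real.sin_add_pi]; ring

lemma ca_add_two_pi (θ : ℝ) (x : Plane) : ca (θ + 2 * Real.pi) x = ca θ x := by
  simp only [ca, Real.cos_add_two_pi, Real.sin_add_two_pi]

lemma cb_add_two_pi (θ : ℝ) (x : Plane) : cb (θ + 2 * Real.pi) x = cb θ x := by
  simp only [cb, Real.cos_add_two_pi, Real.sin_add_two_pi]

lemma sq_ca_add_sq_cb (θ : ℝ) (x : Plane) : ca θ x ^ 2 + cb θ x ^ 2 = ‖x‖ ^ 2 := by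
  rw [EuclideanSpace.norm_eq, Real.sq_sqrt (by positivity), Fin.sum_univ_two]
  simp only [ca, cb, Real.norm_eq_abs, sq_abs]
  have := Real.sin_sq_add_cos_sq θ
  linear_combination (x 0 ^ 2 + x 1 ^ 2) * this

lemma abs_ca_le (θ : ℝ) (x : Plane) : |ca θ x| ≤ ‖x‖ := by
  apply abs_le_of_sq_le_sq _ (norm_nonneg x)
  nlinarith [sq_ca_add_sq_cb θ x, sq_nonneg (cb θ x)]

lemma abs_cb_le (θ : ℝ) (x : Plane) : |cb θ x| ≤ ‖x‖ := by
  apply abs_le_of_sq_le_sq _ (norm_nonneg x)
  nlinarith [sq_ca_add_sq_cb θ x, sq_nonneg (ca θ x)]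

@[fun_prop]
lemma continuous_ca : Continuous (fun p : ℝ × Plane => ca p.1 p.2) := by
  unfold ca; fun_prop

@[fun_prop]
lemma continuous_cb : Continuous (fun p : ℝ × Plane => cb p.1 p.2) := by
  unfold cb; fun_prop

lemma continuous_ca_left (x : Plane) : Continuous (fun θ : ℝ => ca θ x) := by
  unfold ca; fun_prop

lemma continuous_cb_left (x : Plane) : Continuous (fun θ : ℝ => cb θ x) := by
  unfold cb; fun_prop

lemma continuous_ca_right (θ : ℝ) : Continuous (fun x : Plane => ca θ x) := by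
  unfold ca; fun_prop

lemma continuous_cb_right (θ : ℝ) : Continuous (fun x : Plane => cb θ x) := by
  unfold cb; fun_prop

/-- The lines where the first rotated coordinate is constant are Lebesgue null. -/
lemma volume_ca_eq (θ c : ℝ) : (volume : Measure Plane) {x | ca θ x = c} = 0 := by
  let L : Plane →ₗ[ℝ] ℝ :=
    { toFun := fun x => ca θ x
      map_add' := by intro x y; simp only [ca, PiLp.add_apply]; ring
      map_smul' := by intro a x; simp only [ca, PiLp.smul_apply, smul_eq_mul, RingHom.id_apply]; ring }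
  have hL : ∀ x, L x = ca θ x := fun x => rfl
  let v : Plane := !₂[Real.cos θ, Real.sin θ]
  have hv : L v = 1 := by
    rw [hL]
    simp only [ca, v]
    simp
    nlinarith [Real.sin_sq_add_cos_sq θ]
  have hker : LinearMap.ker L ≠ ⊤ := by
    intro h
    have : v ∈ LinearMap.ker L := by rw [h]; trivial
    rw [LinearMap.mem_ker, hv] at this
    exact one_ne_zero this
  have hsub : {x : Plane | ca θ x = c} = (fun x => (-(c • v)) + x) ⁻¹' (LinearMap.ker L : Set Plane) := by
    ext x
    have hx : L (-(c • v) + x) = -c + ca θ x := by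
      rw [map_add, map_neg, map_smul, hv, smul_eq_mul, mul_one, hL]
    rw [mem_preimage, SetLike.mem_coe, LinearMap.mem_ker, hx, mem_ofPred_eq]
    constructor
    · intro h; rw [h]; ring
    · intro h; linarith
  rw [hsub, measure_preimage_add]
  exact Measure.addHaar_submodule _ _ hker

lemma volume_cb_eq (θ c : ℝ) : (volume : Measure Plane) {x | cb θ x = c} = 0 := by
  have : {x : Plane | cb θ x = c} = {x | ca (θ + Real.pi / 2) x = c} := by
    ext x
    simp only [ca, cb, mem_ofPred_eq, Real.cos_add_pi_div_two, Real.sin_add_pi_div_two]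
    constructor <;> intro h <;> linarith
  rw [this]
  exact volume_ca_eq _ _

/-- The rectangle with centre `τ n(θ)`, half side `r` in direction `n(θ)` and half side `ρ r` in the
orthogonal direction. The parameter is `p = (τ, θ, r)`. -/
def rect (ρ : ℝ) (p : ℝ × ℝ × ℝ) : Set Plane :=
  {x | |ca p.2.1 x - p.1| ≤ p.2.2 ∧ |cb p.2.1 x| ≤ ρ * p.2.2}

lemma isClosed_rect (ρ : ℝ) (p : ℝ × ℝ × ℝ) : IsClosed (rect ρ p) := by
  apply IsClosed.inter
  · exact isClosed_le ((continuous_ca_right _).sub continuous_const).abs continuous_const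
  · exact isClosed_le (continuous_cb_right _).abs continuous_const

lemma measurableSet_rect (ρ : ℝ) (p : ℝ × ℝ × ℝ) : MeasurableSet (rect ρ p) :=
  (isClosed_rect ρ p).measurableSet

lemma rect_add_two_pi (ρ τ θ r : ℝ) : rect ρ (τ, θ + 2 * Real.pi, r) = rect ρ (τ, θ, r) := by
  ext x; simp only [rect, mem_ofPred_eq, ca_add_two_pi, cb_add_two_pi]

lemma rect_zero_add_pi (ρ θ r : ℝ) : rect ρ (0, θ + Real.pi, r) = rect ρ (0, θ, r) := by
  ext x; simp only [rect, mem_ofPred_eq, ca_add_pi, cb_add_pi, sub_zero, abs_neg]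

/-- The measure of the rectangle depends continuously on its parameters. -/
lemma continuous_measure_rect (ρ : ℝ) (μ : Measure Plane) [IsFiniteMeasure μ]
    (hμ : μ ≪ (volume : Measure Plane)) :
    Continuous (fun p : ℝ × ℝ × ℝ => μ.real (rect ρ p)) := by
  have key : Continuous (fun p : ℝ × ℝ × ℝ => μ (rect ρ p)) := by
    rw [continuous_iff_continuousAt]
    intro p
    refine tendsto_measure_of_ae_tendsto_indicator_of_isFiniteMeasure (𝓝 p)
      (measurableSet_rect ρ p) (fun q => measurableSet_rect ρ q) ?_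
    have hnull : ∀ᵐ x ∂μ, (ca p.2.1 x ≠ p.1 + p.2.2 ∧ ca p.2.1 x ≠ p.1 - p.2.2) ∧
        (cb p.2.1 x ≠ ρ * p.2.2 ∧ cb p.2.1 x ≠ -(ρ * p.2.2)) := by
      apply hμ.ae_le
      have h1 := volume_ca_eq p.2.1 (p.1 + p.2.2)
      have h2 := volume_ca_eq p.2.1 (p.1 - p.2.2)
      have h3 := volume_cb_eq p.2.1 (ρ * p.2.2)
      have h4 := volume_cb_eq p.2.1 (-(ρ * p.2.2))
      rw [← compl_compl {x | ca p.2.1 x = p.1 + p.2.2}] at h1
      rw [← compl_compl {x | ca p.2.1 x = p.1 - p.2.2}] at h2
      rw [← compl_compl {x | cb p.2.1 x = ρ * p.2.2}] at h3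
      rw [← compl_compl {x | cb p.2.1 x = -(ρ * p.2.2)}] at h4
      have h1' := mem_ae_iff.2 h1
      have h2' := mem_ae_iff.2 h2
      have h3' := mem_ae_iff.2 h3
      have h4' := mem_ae_iff.2 h4
      filter_upwards [h1', h2', h3', h4'] with x a b c d
      exact ⟨⟨a, b⟩, ⟨c, d⟩⟩
    filter_upwards [hnull] with x hx
    obtain ⟨⟨hx1, hx2⟩, hx3, hx4⟩ := hx
    have c1 : Continuous (fun q : ℝ × ℝ × ℝ => |ca q.2.1 x - q.1| - q.2.2) := by
      have := (continuous_ca_left x).comp (continuous_fst.comp (continuous_snd (X := ℝ) (Y := ℝ × ℝ)))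
      exact ((this.sub continuous_fst).abs).sub (continuous_snd.comp continuous_snd)
    have c2 : Continuous (fun q : ℝ × ℝ × ℝ => |cb q.2.1 x| - ρ * q.2.2) := by
      have := (continuous_cb_left x).comp (continuous_fst.comp (continuous_snd (X := ℝ) (Y := ℝ × ℝ)))
      exact (this.abs).sub (continuous_const.mul (continuous_snd.comp continuous_snd))
    have ne1 : |ca p.2.1 x - p.1| - p.2.2 ≠ 0 := by
      intro h
      have h' : |ca p.2.1 x - p.1| = p.2.2 := by linarith
      rcases eq_or_eq_neg_of_abs_eq h' with h'' | h''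
      · exact hx1 (by linarith)
      · exact hx2 (by linarith)
    have ne2 : |cb p.2.1 x| - ρ * p.2.2 ≠ 0 := by
      intro h
      have h' : |cb p.2.1 x| = ρ * p.2.2 := by linarith
      rcases eq_or_eq_neg_of_abs_eq h' with h'' | h''
      · exact hx3 (by linarith)
      · exact hx4 (by linarith)
    have e1 : ∀ᶠ q : ℝ × ℝ × ℝ in 𝓝 p, (|ca q.2.1 x - q.1| ≤ q.2.2 ↔ |ca p.2.1 x - p.1| ≤ p.2.2) := by
      rcases lt_or_gt_of_ne ne1 with h | h
      · filter_upwards [c1.continuousAt.eventually_lt_const h] with q hq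
        constructor <;> intro _ <;> linarith
      · filter_upwards [c1.continuousAt.eventually_const_lt h] with q hq
        constructor <;> intro _ <;> linarith
    have e2 : ∀ᶠ q : ℝ × ℝ × ℝ in 𝓝 p, (|cb q.2.1 x| ≤ ρ * q.2.2 ↔ |cb p.2.1 x| ≤ ρ * p.2.2) := by
      rcases lt_or_gt_of_ne ne2 with h | h
      · filter_upwards [c2.continuousAt.eventually_lt_const h] with q hq
        constructor <;> intro _ <;> linarith
      · filter_upwards [c2.continuousAt.eventually_const_lt h] with q hq
        constructor <;> intro _ <;> linarith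
    filter_upwards [e1, e2] with q h1 h2
    simp only [rect, mem_ofPred_eq]
    rw [h1, h2]
  rw [continuous_iff_continuousAt] at key ⊢
  intro p
  exact (ENNReal.tendsto_toReal (measure_ne_top μ _)).comp (key p)

end Pool.Agent.Helper72
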