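import Mathlib
import Pool.Agent.Helper72.Winding
import Pool.Agent.Helper72.SquareGeom

open Set Topology MeasureTheory Filter
open scoped ENNReal

namespace Pool.Agent.Helper72

/-- A unique root in a compact interval depends continuously on the parameter. -/
lemma continuous_root {P : Type*} [TopologicalSpace P] (F : P × ℝ → ℝ) (hF : Continuous F)
    (c R : ℝ) (r : P → ℝ) (hr : ∀ p, r p ∈ Icc 0 R ∧ F (p, r p) = c)
    (huniq : ∀ p, ∀ s ∈ Icc 0 R, F (p, s) = c → s = r p) : Continuous r := by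
  rw [continuous_iff_continuousAt]
  intro p
  refine isCompact_Icc.tendsto_nhds_of_unique_mapClusterPt
    (Eventually.of_forall fun q => (hr q).1) ?_
  intro y hy hcl
  rw [mapClusterPt_iff_ultrafilter] at hcl
  obtain ⟨u, hu, hty⟩ := hcl
  have h1 : Tendsto (fun q => F (q, r q)) u (𝓝 (F (p, y))) := by
    have h2 : Tendsto (fun q => (q, r q)) u (𝓝 (p, y)) := by
      have hu' : Tendsto (fun q : P => q) u (𝓝 p) := hu
      exact hu'.prodMk_nhds hty
    exact (hF.tendsto (p, y)).comp h2
  have h3 : (fun q => F (q, r q)) = fun _ => c := by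
    funext q; exact (hr q).2
  rw [h3] at h1
  have h4 : F (p, y) = c := (tendsto_nhds_unique h1 tendsto_const_nhds)
  exact huniq p y hy h4

variable {ρ D : ℝ}

/-- if two sets agree on the disc carrying the measure they have the same measure -/
lemma real_congr_of_ball {μ : Measure Plane} {D : ℝ}
    (hs : μ (Metric.closedBall (0 : Plane) D)ᶜ = 0) {A B : Set Plane}
    (h : ∀ x : Plane, ‖x‖ ≤ D → (x ∈ A ↔ x ∈ B)) : μ.real A = μ.real B := by
  have : A =ᵐ[μ] B := by
    have h1 : ∀ᵐ x ∂μ, x ∈ Metric.closedBall (0 : Plane) D := by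
      rw [← mem_ae_iff] at hs
      exact hs
    filter_upwards [h1] with x hx
    have := h x (by simpa using hx)
    exact propext this
  rw [measureReal_def, measureReal_def, measure_congr this]

lemma real_rect_zero {μ : Measure Plane} (hμ : μ ≪ (volume : Measure Plane)) (τ θ : ℝ) :
    μ.real (rect ρ (τ, θ, 0)) = 0 := by
  have h0 : μ (rect ρ (τ, θ, 0)) = 0 := by
    apply hμ
    apply measure_mono_null _ (volume_ca_eq θ τ)
    intro x hx
    have := hx.1
    simp only [] at this
    have h2 := abs_nonpos_iff.1 this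
    show ca θ x = τ
    linarith
  rw [measureReal_def, h0]; rfl

lemma real_rect_big {μ : Measure Plane} (hρ : 0 < ρ)
    (hs : μ (Metric.closedBall (0 : Plane) D)ᶜ = 0) {τ θ r : ℝ} (h1 : |τ| + D ≤ r)
    (h2 : D / ρ ≤ r) : μ.real (rect ρ (τ, θ, r)) = μ.real univ := by
  apply real_congr_of_ball hs
  intro x hx
  simp only [mem_univ, iff_true]
  refine ⟨?_, ?_⟩
  · show |ca θ x - τ| ≤ r
    calc |ca θ x - τ| ≤ |ca θ x| + |τ| := abs_sub _ _
      _ ≤ ‖x‖ + |τ| := by linarith [abs_ca_le θ x]
      _ ≤ r := by linarith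
  · show |cb θ x| ≤ ρ * r
    have := abs_cb_le θ x
    rw [div_le_iff₀ hρ] at h2
    linarith

lemma exists_root {μ : Measure Plane} [IsFiniteMeasure μ] (hμ : μ ≪ (volume : Measure Plane))
    (hρ : 0 < ρ) (hD : 0 < D) (hs : μ (Metric.closedBall (0 : Plane) D)ᶜ = 0)
    {τ θ R : ℝ} (h1 : |τ| + D ≤ R) (h2 : D / ρ ≤ R) :
    ∃ r ∈ Icc 0 R, μ.real (rect ρ (τ, θ, r)) = μ.real univ / 2 := by
  have hR : 0 ≤ R := by
    have := abs_nonneg τ
    linarith
  have hc : ContinuousOn (fun r : ℝ => μ.real (rect ρ (τ, θ, r))) (Icc 0 R) := by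
    apply Continuous.continuousOn
    exact (continuous_measure_rect ρ μ hμ).comp
      (Continuous.prodMk continuous_const (Continuous.prodMk continuous_const continuous_id))
  have := intermediate_value_Icc hR hc
  have h0 := real_rect_zero (ρ := ρ) hμ τ θ
  have hb := real_rect_big (θ := θ) hρ hs h1 h2
  have hm : μ.real univ / 2 ∈ Icc (μ.real (rect ρ (τ, θ, 0))) (μ.real (rect ρ (τ, θ, R))) := by
    rw [h0, hb]
    have : 0 ≤ μ.real univ := measureReal_nonneg
    constructor <;> linarith
  obtain ⟨r, hr, hr'⟩ := this hm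
  exact ⟨r, hr, hr'⟩

lemma root_unique_aux {μ : Measure Plane} [IsFiniteMeasure μ] (hμ : μ ≪ (volume : Measure Plane))
    (hρ : 0 < ρ) (hs : μ (Metric.closedBall (0 : Plane) D)ᶜ = 0)
    (hpos : ∀ U : Set Plane, IsOpen U → (Metric.ball (0 : Plane) D ∩ U).Nonempty → 0 < μ U)
    (hm : 0 < μ.real univ)
    {τ θ r r' : ℝ} (hrr : r < r')
    (h1 : μ.real (rect ρ (τ, θ, r)) = μ.real univ / 2)
    (h2 : μ.real (rect ρ (τ, θ, r')) = μ.real univ / 2) : False := by
  have hball : μ (Metric.ball (0 : Plane) D)ᶜ = 0 := by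
    have : (Metric.ball (0 : Plane) D)ᶜ ⊆ (Metric.closedBall (0 : Plane) D)ᶜ ∪ Metric.sphere 0 D := by
      intro x hx
      simp only [mem_compl_iff, Metric.mem_ball, dist_zero_right, not_lt] at hx
      rcases hx.eq_or_lt with h | h
      · right; simp [h]
      · left; simp; exact h
    refine measure_mono_null this (measure_union_null hs ?_)
    exact hμ (Measure.addHaar_sphere _ _ _)
  -- the two open sets
  set V : Set Plane := (rect ρ (τ, θ, r))ᶜ with hV
  have hVo : IsOpen V := (isClosed_rect ρ _).isOpen_compl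
  set U : Set Plane := {x | |ca θ x - τ| < r' ∧ |cb θ x| < ρ * r'} with hU
  have hUo : IsOpen U := by
    apply IsOpen.inter
    · exact isOpen_lt ((continuous_ca_right _).sub continuous_const).abs continuous_const
    · exact isOpen_lt (continuous_cb_right _).abs continuous_const
  have hUr : U ⊆ rect ρ (τ, θ, r') := fun x hx => ⟨hx.1.le, hx.2.le⟩
  have hrU : rect ρ (τ, θ, r) ⊆ U := by
    intro x hx
    have a : |ca θ x - τ| ≤ r := hx.1
    have b : |cb θ x| ≤ ρ * r := hx.2
    refine ⟨by linarith, ?_⟩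
    have := mul_lt_mul_of_pos_left hrr hρ
    linarith
  have hcov : Metric.ball (0 : Plane) D ⊆ U ∪ V := by
    intro x _
    by_cases h : x ∈ rect ρ (τ, θ, r)
    · left; exact hrU h
    · right; exact h
  have hVne : (Metric.ball (0 : Plane) D ∩ V).Nonempty := by
    by_contra hne
    rw [not_nonempty_iff_eq_empty] at hne
    have hsub : Metric.ball (0 : Plane) D ⊆ rect ρ (τ, θ, r) := by
      intro x hx
      by_contra hx'
      have : x ∈ (Metric.ball (0 : Plane) D ∩ V) := ⟨hx, hx'⟩
      rw [hne] at this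
      exact this
    have : μ.real univ ≤ μ.real (rect ρ (τ, θ, r)) := by
      have h3 : μ univ ≤ μ (rect ρ (τ, θ, r)) := by
        calc μ univ = μ (Metric.ball (0 : Plane) D ∪ (Metric.ball (0 : Plane) D)ᶜ) := by
              rw [union_compl_self]
          _ ≤ μ (Metric.ball (0 : Plane) D) + μ (Metric.ball (0 : Plane) D)ᶜ := measure_union_le _ _
          _ = μ (Metric.ball (0 : Plane) D) := by rw [hball, add_zero]
          _ ≤ μ (rect ρ (τ, θ, r)) := measure_mono hsub
      rw [measureReal_def, measureReal_def]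
      exact ENNReal.toReal_mono (measure_ne_top μ _) h3
    linarith
  have hUne : (Metric.ball (0 : Plane) D ∩ U).Nonempty := by
    by_contra hne
    rw [not_nonempty_iff_eq_empty] at hne
    have hsub : rect ρ (τ, θ, r) ⊆ (Metric.ball (0 : Plane) D)ᶜ := by
      intro x hx hx'
      have : x ∈ (Metric.ball (0 : Plane) D ∩ U) := ⟨hx', hrU hx⟩
      rw [hne] at this
      exact this
    have h3 : μ (rect ρ (τ, θ, r)) = 0 := measure_mono_null hsub hball
    have h4 : μ.real (rect ρ (τ, θ, r)) = 0 := by rw [measureReal_def, h3]; rfl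
    linarith
  have hpre : IsPreconnected (Metric.ball (0 : Plane) D) := (convex_ball (0 : Plane) D).isPreconnected
  have hUV := hpre U V hUo hVo hcov hUne hVne
  have hlt := hpos (U ∩ V) (hUo.inter hVo) hUV
  have hle : μ (rect ρ (τ, θ, r)) + μ (U ∩ V) ≤ μ (rect ρ (τ, θ, r')) := by
    rw [← measure_union _ (hUo.inter hVo).measurableSet]
    · apply measure_mono
      intro x hx
      rcases hx with hx | hx
      · exact hUr (hrU hx)
      · exact hUr hx.1
    · rw [Set.disjoint_left]
      intro x hx hx'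
      exact hx'.2 hx
  have heq : μ (rect ρ (τ, θ, r)) = μ (rect ρ (τ, θ, r')) := by
    rw [measureReal_def] at h1 h2
    rw [← ENNReal.toReal_eq_toReal_iff' (measure_ne_top μ _) (measure_ne_top μ _), h1, h2]
  rw [← heq] at hle
  have hfin := measure_ne_top μ (rect ρ (τ, θ, r))
  have : μ (U ∩ V) ≤ 0 := by
    have h5 : μ (rect ρ (τ, θ, r)) + μ (U ∩ V) ≤ μ (rect ρ (τ, θ, r)) + 0 := by simpa using hle
    exact (ENNReal.add_le_add_iff_left hfin).1 h5
  exact absurd hlt (not_lt.2 this)

lemma root_unique {μ : Measure Plane} [IsFiniteMeasure μ] (hμ : μ ≪ (volume : Measure Plane))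
    (hρ : 0 < ρ) (hs : μ (Metric.closedBall (0 : Plane) D)ᶜ = 0)
    (hpos : ∀ U : Set Plane, IsOpen U → (Metric.ball (0 : Plane) D ∩ U).Nonempty → 0 < μ U)
    (hm : 0 < μ.real univ)
    {τ θ r r' : ℝ}
    (h1 : μ.real (rect ρ (τ, θ, r)) = μ.real univ / 2)
    (h2 : μ.real (rect ρ (τ, θ, r')) = μ.real univ / 2) : r = r' := by
  rcases lt_trichotomy r r' with h | h | h
  · exact (root_unique_aux hμ hρ hs hpos hm h h1 h2).elim
  · exact h
  · exact (root_unique_aux hμ hρ hs hpos hm h h2 h1).elim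

/-- At distance `T = D + D / ρ` the rectangles look like half planes inside the disc. -/
lemma halfplane_add {ν : Measure Plane} [IsFiniteMeasure ν] (hν : ν ≪ (volume : Measure Plane))
    (hρ : 0 < ρ) (hD : 0 < D) (hs : ν (Metric.closedBall (0 : Plane) D)ᶜ = 0)
    (θ : ℝ) {r : ℝ} (hr1 : D / ρ ≤ r) (hr2 : r ≤ (D + D / ρ) + D) :
    ν.real (rect ρ (D + D / ρ, θ, r)) +
      ν.real (rect ρ (D + D / ρ, θ + Real.pi, 2 * (D + D / ρ) - r)) = ν.real univ := by
  set T : ℝ := D + D / ρ with hT
  have hDρ : 0 < D / ρ := div_pos hD hρ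
  have hA : ν.real (rect ρ (T, θ, r)) = ν.real {x : Plane | T - r ≤ ca θ x} := by
    apply real_congr_of_ball hs
    intro x hx
    have h1 := abs_le.1 ((abs_ca_le θ x).trans hx)
    have h2 := (abs_cb_le θ x).trans hx
    have h3 : D ≤ ρ * r := by
      rw [div_le_iff₀ hρ] at hr1; linarith
    constructor
    · rintro ⟨h, -⟩
      have h : |ca θ x - T| ≤ r := h
      have := (abs_le.1 h).1
      show T - r ≤ ca θ x
      linarith
    · intro h
      have h : T - r ≤ ca θ x := h
      refine ⟨?_, ?_⟩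
      · show |ca θ x - T| ≤ r
        rw [abs_le]; constructor <;> linarith
      · show |cb θ x| ≤ ρ * r
        linarith
  have hB : ν.real (rect ρ (T, θ + Real.pi, 2 * T - r)) = ν.real {x : Plane | ca θ x ≤ T - r} := by
    apply real_congr_of_ball hs
    intro x hx
    have h1 := abs_le.1 ((abs_ca_le θ x).trans hx)
    have h2 := (abs_cb_le θ x).trans hx
    have h3 : D ≤ ρ * (2 * T - r) := by
      have : D / ρ ≤ 2 * T - r := by linarith
      rw [div_le_iff₀ hρ] at this; linarith
    constructor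
    · rintro ⟨h, -⟩
      have h : |ca (θ + Real.pi) x - T| ≤ 2 * T - r := h
      rw [ca_add_pi] at h
      have := (abs_le.1 h).1
      show ca θ x ≤ T - r
      linarith
    · intro h
      have h : ca θ x ≤ T - r := h
      refine ⟨?_, ?_⟩
      · show |ca (θ + Real.pi) x - T| ≤ 2 * T - r
        rw [ca_add_pi, abs_le]; constructor <;> linarith
      · show |cb (θ + Real.pi) x| ≤ ρ * (2 * T - r)
        rw [cb_add_pi, abs_neg]; linarith
  rw [hA, hB]
  have hmB : MeasurableSet {x : Plane | ca θ x ≤ T - r} :=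
    (isClosed_le (continuous_ca_right θ) continuous_const).measurableSet
  have hun : {x : Plane | T - r ≤ ca θ x} ∪ {x : Plane | ca θ x ≤ T - r} = univ := by
    ext x; simp only [mem_union, mem_ofPred_eq, mem_univ, iff_true]; exact le_total _ _
  have hin : ν.real ({x : Plane | T - r ≤ ca θ x} ∩ {x : Plane | ca θ x ≤ T - r}) = 0 := by
    have : ν ({x : Plane | T - r ≤ ca θ x} ∩ {x : Plane | ca θ x ≤ T - r}) = 0 := by
      apply hν
      apply measure_mono_null _ (volume_ca_eq θ (T - r))
      rintro x ⟨h1, h2⟩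
      exact le_antisymm h2 h1
    rw [measureReal_def, this]; rfl
  have := measureReal_union_add_inter (μ := ν) (s := {x : Plane | T - r ≤ ca θ x}) hmB
  rw [hun, hin, add_zero] at this
  exact this.symm

/-- The key existence statement when the first measure is positive on open sets of the disc. -/
lemma core {μ ν₂ ν₃ : Measure Plane} [IsFiniteMeasure μ] [IsFiniteMeasure ν₂] [IsFiniteMeasure ν₃]
    (hμ : μ ≪ (volume : Measure Plane)) (hν₂ : ν₂ ≪ (volume : Measure Plane))
    (hν₃ : ν₃ ≪ (volume : Measure Plane))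
    (hρ : 0 < ρ) (hD : 0 < D)
    (hs : μ (Metric.closedBall (0 : Plane) D)ᶜ = 0)
    (hs₂ : ν₂ (Metric.closedBall (0 : Plane) D)ᶜ = 0)
    (hs₃ : ν₃ (Metric.closedBall (0 : Plane) D)ᶜ = 0)
    (hpos : ∀ U : Set Plane, IsOpen U → (Metric.ball (0 : Plane) D ∩ U).Nonempty → 0 < μ U)
    (hm : 0 < μ.real univ) :
    ∃ p : ℝ × ℝ × ℝ, p ∈ Icc 0 (D + D / ρ) ×ˢ (Icc 0 (2 * Real.pi) ×ˢ
        Icc 0 ((D + D / ρ) + (D + D / ρ))) ∧
      μ.real (rect ρ p) = μ.real univ / 2 ∧ ν₂.real (rect ρ p) = ν₂.real univ / 2 ∧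
      ν₃.real (rect ρ p) = ν₃.real univ / 2 := by
  set T : ℝ := D + D / ρ with hT
  have hDρ : 0 < D / ρ := div_pos hD hρ
  have hTpos : 0 < T := by positivity
  set R : ℝ := T + T with hR
  -- clamped distance
  let σ : ℝ → ℝ := fun t => T * max 0 (min t 1)
  have hσc : Continuous σ := by fun_prop
  have hσ0 : σ 0 = 0 := by simp [σ]
  have hσ1 : σ 1 = T := by simp [σ]
  have hσI : ∀ t, σ t ∈ Icc 0 T := by
    intro t
    have h1 : 0 ≤ max 0 (min t 1) := le_max_left _ _
    have h2 : max 0 (min t 1) ≤ 1 := max_le zero_le_one (min_le_right _ _)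
    exact ⟨by positivity, by nlinarith⟩
  have hex : ∀ q : ℝ × ℝ, ∃ r ∈ Icc 0 R, μ.real (rect ρ (σ q.1, q.2, r)) = μ.real univ / 2 := by
    intro q
    have h1 := hσI q.1
    apply exists_root hμ hρ hD hs
    · rw [abs_of_nonneg h1.1]; linarith [h1.2]
    · linarith
  choose r hrI hrm using hex
  have hru : ∀ q : ℝ × ℝ, ∀ s ∈ Icc 0 R,
      μ.real (rect ρ (σ q.1, q.2, s)) = μ.real univ / 2 → s = r q := by
    intro q s _ hsm
    exact root_unique hμ hρ hs hpos hm hsm (hrm q)
  have hrc : Continuous r := by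
    apply continuous_root (fun q : (ℝ × ℝ) × ℝ => μ.real (rect ρ (σ q.1.1, q.1.2, q.2))) _
      (μ.real univ / 2) R r (fun q => ⟨hrI q, hrm q⟩) hru
    exact (continuous_measure_rect ρ μ hμ).comp (by fun_prop)
  have hcont : Continuous (fun q : ℝ × ℝ => (σ q.1, q.2, r q)) := by fun_prop
  -- the test map
  let G : ℝ × ℝ → ℂ := fun q =>
    ⟨ν₂.real (rect ρ (σ q.1, q.2, r q)) - ν₂.real univ / 2,
      ν₃.real (rect ρ (σ q.1, q.2, r q)) - ν₃.real univ / 2⟩
  have hGc : Continuous G := by
    have h2 := (continuous_measure_rect ρ ν₂ hν₂).comp hcont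
    have h3 := (continuous_measure_rect ρ ν₃ hν₃).comp hcont
    have h4 : Continuous (fun q : ℝ × ℝ =>
        (((ν₂.real (rect ρ (σ q.1, q.2, r q)) - ν₂.real univ / 2 : ℝ) : ℂ) +
        ((ν₃.real (rect ρ (σ q.1, q.2, r q)) - ν₃.real univ / 2 : ℝ) : ℂ) * Complex.I)) := by
      apply Continuous.add
      · exact Complex.continuous_ofReal.comp (h2.sub continuous_const)
      · exact (Complex.continuous_ofReal.comp (h3.sub continuous_const)).mul continuous_const
    convert h4 using 1
    funext q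
    apply Complex.ext <;> simp [G]
  have hrper : ∀ t θ, r (t, θ + 2 * Real.pi) = r (t, θ) := by
    intro t θ
    symm
    apply hru (t, θ + 2 * Real.pi) _ (hrI _)
    show μ.real (rect ρ (σ t, θ + 2 * Real.pi, r (t, θ))) = _
    rw [rect_add_two_pi]
    exact hrm (t, θ)
  have hper : ∀ t θ, G (t, θ + 2 * Real.pi) = G (t, θ) := by
    intro t θ
    simp only [G, hrper, rect_add_two_pi]
  have hreven : ∀ θ, r (0, θ + Real.pi) = r (0, θ) := by
    intro θ
    symm
    apply hru (0, θ + Real.pi) _ (hrI _)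
    show μ.real (rect ρ (σ 0, θ + Real.pi, r (0, θ))) = _
    rw [hσ0, rect_zero_add_pi]
    have := hrm (0, θ)
    simp only [hσ0] at this
    exact this
  have heven : ∀ θ, G (0, θ + Real.pi) = G (0, θ) := by
    intro θ
    simp only [G, hreven, hσ0, rect_zero_add_pi]
  have hrb : ∀ θ, D / ρ ≤ r (1, θ) ∧ r (1, θ) ≤ T + D := by
    intro θ
    have hθ := hrm (1, θ)
    simp only [hσ1] at hθ
    constructor
    · by_contra hlt
      push Not at hlt
      have : μ.real (rect ρ (T, θ, r (1, θ))) = μ.real (∅ : Set Plane) := by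
        apply real_congr_of_ball hs
        intro x hx
        simp only [mem_empty_iff_false, iff_false]
        rintro ⟨h1, -⟩
        have h1 : |ca θ x - T| ≤ r (1, θ) := h1
        have h2 := (abs_le.1 h1).1
        have h3 := (abs_le.1 ((abs_ca_le θ x).trans hx)).2
        linarith
      rw [measureReal_empty] at this
      linarith
    · by_contra hlt
      push Not at hlt
      have : μ.real (rect ρ (T, θ, r (1, θ))) = μ.real univ := by
        apply real_rect_big hρ hs
        · rw [abs_of_pos hTpos]; linarith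
        · linarith
      linarith
  have hrodd : ∀ θ, r (1, θ + Real.pi) = 2 * T - r (1, θ) := by
    intro θ
    symm
    have hb := hrb θ
    apply hru (1, θ + Real.pi) _ _
    · show μ.real (rect ρ (σ 1, θ + Real.pi, 2 * T - r (1, θ))) = _
      rw [hσ1]
      have h1 := halfplane_add hμ hρ hD hs θ hb.1 hb.2
      have h2 := hrm (1, θ)
      simp only [hσ1] at h2
      linarith
    · exact ⟨by linarith, by linarith⟩
  have hodd : ∀ θ, G (1, θ + Real.pi) = - G (1, θ) := by
    intro θ
    have hb := hrb θ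
    have h2 := halfplane_add hν₂ hρ hD hs₂ θ hb.1 hb.2
    have h3 := halfplane_add hν₃ hρ hD hs₃ θ hb.1 hb.2
    apply Complex.ext
    · simp only [G, hrodd, hσ1, Complex.neg_re]
      linarith
    · simp only [G, hrodd, hσ1, Complex.neg_im]
      linarith
  obtain ⟨q, hq⟩ := exists_zero_of_even_odd G hGc hper heven hodd
  -- reduce the angle modulo `2 π`
  have hnper : ∀ (n : ℤ) (τ θ s : ℝ), rect ρ (τ, θ - n * (2 * Real.pi), s) = rect ρ (τ, θ, s) := by
    intro n τ θ s
    ext x
    simp only [rect, mem_ofPred_eq, ca, cb, Real.cos_sub_int_mul_two_pi,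
      Real.sin_sub_int_mul_two_pi]
  obtain ⟨n, hn⟩ : ∃ n : ℤ, q.2 - n * (2 * Real.pi) ∈ Icc 0 (2 * Real.pi) := by
    refine ⟨⌊q.2 / (2 * Real.pi)⌋, ?_⟩
    have h2pi : 0 < 2 * Real.pi := by positivity
    have h1 := Int.floor_le (q.2 / (2 * Real.pi))
    have h2 := Int.lt_floor_add_one (q.2 / (2 * Real.pi))
    rw [le_div_iff₀ h2pi] at h1
    rw [div_lt_iff₀ h2pi] at h2
    constructor
    · linarith
    · linarith
  refine ⟨(σ q.1, q.2 - n * (2 * Real.pi), r q), ⟨hσI _, hn, hrI _⟩, ?_, ?_, ?_⟩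
  · rw [hnper]; exact hrm q
  · rw [hnper]
    have := congrArg Complex.re hq
    simp only [G, Complex.zero_re] at this
    linarith
  · rw [hnper]
    have := congrArg Complex.im hq
    simp only [G, Complex.zero_im] at this
    linarith

end Pool.Agent.Helper72
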