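import Mathlib

open Set Topology MeasureTheory Filter
open scoped ENNReal NNReal

namespace Pool.Agent.Helper72

/-- A finite measure on the plane that is symmetric about the origin and has the same null sets
as Lebesgue measure. -/
lemma exists_symmetric_measure : ∃ γ : Measure (EuclideanSpace ℝ (Fin 2)), IsFiniteMeasure γ ∧
    γ ≪ (volume : Measure (EuclideanSpace ℝ (Fin 2))) ∧
    (volume : Measure (EuclideanSpace ℝ (Fin 2))) ≪ γ ∧
    γ.map (fun x => -x) = γ := by
  set ν : Measure (EuclideanSpace ℝ (Fin 2)) := (volume : Measure (EuclideanSpace ℝ (Fin 2))).toFinite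
    with hν
  have h1 : ν ≪ (volume : Measure (EuclideanSpace ℝ (Fin 2))) := toFinite_absolutelyContinuous _
  have h2 : (volume : Measure (EuclideanSpace ℝ (Fin 2))) ≪ ν := absolutelyContinuous_toFinite _
  have hm : Measurable (fun x : EuclideanSpace ℝ (Fin 2) => -x) := measurable_neg
  refine ⟨ν + ν.map (fun x => -x), ?_, ?_, ?_, ?_⟩
  · have : IsFiniteMeasure (ν.map (fun x => -x)) := Measure.isFiniteMeasure_map _ _
    infer_instance
  · refine Measure.AbsolutelyContinuous.add_left h1 ?_
    have h3 := h1.map hm
    have h4 : (volume : Measure (EuclideanSpace ℝ (Fin 2))).map (fun x => -x) = volume :=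
      (Measure.measurePreserving_neg (volume : Measure (EuclideanSpace ℝ (Fin 2)))).map_eq
    rw [h4] at h3
    exact h3
  · exact h2.trans (Measure.absolutelyContinuous_of_le (Measure.le_add_right le_rfl))
  · rw [Measure.map_add _ _ hm, Measure.map_map hm hm, add_comm]
    congr 1
    have : ((fun x : EuclideanSpace ℝ (Fin 2) => -x) ∘ fun x => -x) = id := by
      funext x; simp
    rw [this, Measure.map_id]

/-- No bounded convex set contains exactly half of both `γ` and of its dilate. -/
lemma no_bounded_convex (γ : Measure (EuclideanSpace ℝ (Fin 2))) [IsFiniteMeasure γ]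
    (h1 : γ ≪ (volume : Measure (EuclideanSpace ℝ (Fin 2))))
    (h2 : (volume : Measure (EuclideanSpace ℝ (Fin 2))) ≪ γ)
    (hsymm : γ.map (fun x => -x) = γ)
    (Q : Set (EuclideanSpace ℝ (Fin 2))) (hQ : Convex ℝ Q) (hb : Bornology.IsBounded Q)
    (hh : γ Q = γ univ / 2)
    (hh2 : (γ.map (fun x => (2 : ℝ) • x)) Q = (γ.map (fun x => (2 : ℝ) • x)) univ / 2) : False := by
  have hm : Measurable (fun x : EuclideanSpace ℝ (Fin 2) => -x) := measurable_neg
  have hm2 : Measurable (fun x : EuclideanSpace ℝ (Fin 2) => (2 : ℝ) • x) :=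
    measurable_const_smul (2 : ℝ)
  have hγpos : 0 < γ univ := by
    have : 0 < (volume : Measure (EuclideanSpace ℝ (Fin 2))) univ :=
      isOpen_univ.measure_pos _ univ_nonempty
    rw [pos_iff_ne_zero]
    intro h
    exact this.ne' (h2 h)
  have hfin : γ univ ≠ ∞ := measure_ne_top _ _
  have hhalf_pos : 0 < γ univ / 2 := ENNReal.half_pos hγpos.ne'
  -- the interior carries everything
  have hfr : γ (frontier Q) = 0 := h1 (hQ.addHaar_frontier _)
  have hint : γ (interior Q) = γ Q := by
    apply measure_congr
    have hclos : interior Q ≤ᵐ[γ] Q := interior_subset.eventuallyLE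
    refine hclos.antisymm ?_
    have : Q ⊆ interior Q ∪ frontier Q := by
      intro x hx
      by_cases h : x ∈ interior Q
      · exact Or.inl h
      · exact Or.inr ⟨subset_closure hx, h⟩
    have h3 : ∀ᵐ x ∂γ, x ∉ frontier Q := by
      rw [ae_iff]
      simpa using hfr
    filter_upwards [h3] with x hx hxQ
    rcases this hxQ with h | h
    · exact h
    · exact absurd h hx
  by_cases h0 : (0 : EuclideanSpace ℝ (Fin 2)) ∈ interior Q
  · -- dilation argument
    set P : Set (EuclideanSpace ℝ (Fin 2)) := (fun x => (2 : ℝ) • x) ⁻¹' Q with hP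
    have h0Q : (0 : EuclideanSpace ℝ (Fin 2)) ∈ Q := interior_subset h0
    have hPQ : P ⊆ Q := by
      intro x hx
      have hx : (2 : ℝ) • x ∈ Q := hx
      have := hQ h0Q hx (show (0 : ℝ) ≤ 1 / 2 by norm_num) (show (0 : ℝ) ≤ 1 / 2 by norm_num)
        (by norm_num)
      rw [smul_zero, zero_add, smul_smul] at this
      norm_num at this
      exact this
    have hPc : Convex ℝ P := by
      have := hQ.linear_preimage (LinearMap.lsmul ℝ (EuclideanSpace ℝ (Fin 2)) (2 : ℝ))
      exact this
    have hQnull : NullMeasurableSet Q (γ.map (fun x => (2 : ℝ) • x)) := by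
      apply nullMeasurableSet_of_null_frontier
      rw [Measure.map_apply hm2 isClosed_frontier.measurableSet]
      apply h1
      have hq := hQ.addHaar_frontier (volume : Measure (EuclideanSpace ℝ (Fin 2)))
      have := Measure.addHaar_preimage_smul (volume : Measure (EuclideanSpace ℝ (Fin 2)))
        (two_ne_zero (α := ℝ)) (frontier Q)
      rw [hq, mul_zero] at this
      exact this
    have hPm : γ P = γ Q := by
      have h3 : (γ.map (fun x => (2 : ℝ) • x)) Q = γ P :=
        Measure.map_apply₀ hm2.aemeasurable hQnull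
      have h4 : (γ.map (fun x => (2 : ℝ) • x)) univ = γ univ := by
        rw [Measure.map_apply hm2 MeasurableSet.univ, preimage_univ]
      rw [h3, h4] at hh2
      rw [hh2, hh]
    have hPnull : NullMeasurableSet P γ := by
      apply nullMeasurableSet_of_null_frontier
      exact h1 (hPc.addHaar_frontier _)
    have hdiff : γ (Q \ P) = 0 := by
      rw [measure_sdiff hPQ hPnull (measure_ne_top _ _), hPm, tsub_self]
    have hvdiff : (volume : Measure (EuclideanSpace ℝ (Fin 2))) (Q \ P) = 0 := h2 hdiff
    have hvol : (volume : Measure (EuclideanSpace ℝ (Fin 2))) Q ≤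
        (volume : Measure (EuclideanSpace ℝ (Fin 2))) P := by
      calc (volume : Measure (EuclideanSpace ℝ (Fin 2))) Q
          ≤ (volume : Measure (EuclideanSpace ℝ (Fin 2))) (P ∪ (Q \ P)) := by
            apply measure_mono
            intro x hx
            by_cases h : x ∈ P
            · exact Or.inl h
            · exact Or.inr ⟨hx, h⟩
        _ ≤ _ := measure_union_le _ _
        _ = _ := by rw [hvdiff, add_zero]
    have hvP : (volume : Measure (EuclideanSpace ℝ (Fin 2))) P =
        ENNReal.ofReal (1 / 4) * (volume : Measure (EuclideanSpace ℝ (Fin 2))) Q := by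
      rw [hP, Measure.addHaar_preimage_smul _ two_ne_zero]
      congr 2
      simp
      norm_num
    have hvfin : (volume : Measure (EuclideanSpace ℝ (Fin 2))) Q ≠ ∞ := hb.measure_lt_top.ne
    have hvpos : 0 < (volume : Measure (EuclideanSpace ℝ (Fin 2))) Q := by
      have : 0 < (volume : Measure (EuclideanSpace ℝ (Fin 2))) (interior Q) :=
        isOpen_interior.measure_pos _ ⟨0, h0⟩
      exact this.trans_le (measure_mono interior_subset)
    rw [hvP] at hvol
    have h5 := ENNReal.toReal_mono (ENNReal.mul_ne_top ENNReal.ofReal_ne_top hvfin) hvol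
    rw [ENNReal.toReal_mul, ENNReal.toReal_ofReal (by norm_num)] at h5
    have h6 : 0 < ((volume : Measure (EuclideanSpace ℝ (Fin 2))) Q).toReal :=
      ENNReal.toReal_pos hvpos.ne' hvfin
    linarith
  · -- separation argument
    obtain ⟨f, hf⟩ := geometric_hahn_banach_open_point hQ.interior isOpen_interior h0
    rw [map_zero] at hf
    have hne : (interior Q).Nonempty := by
      rw [nonempty_iff_ne_empty]
      intro h
      rw [h, measure_empty] at hint
      rw [← hint] at hh
      exact hhalf_pos.ne hh
    obtain ⟨a, ha⟩ := hne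
    have hfa : f a < 0 := hf a ha
    set H : Set (EuclideanSpace ℝ (Fin 2)) := {x | f x < 0} with hH
    have hHo : IsOpen H := isOpen_lt f.continuous continuous_const
    have hHm : MeasurableSet H := hHo.measurableSet
    have hsub : interior Q ⊆ H := fun x hx => hf x hx
    -- `H` has at most half of the mass
    have hHneg : γ ((fun x => -x) ⁻¹' H) = γ H := by
      rw [← Measure.map_apply hm hHm, hsymm]
    have hdisj : Disjoint H ((fun x => -x) ⁻¹' H) := by
      rw [Set.disjoint_left]
      intro x hx hx'
      have hx : f x < 0 := hx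
      have hx' : f (-x) < 0 := hx'
      rw [map_neg] at hx'
      linarith
    have hHle : γ H + γ H ≤ γ univ := by
      calc γ H + γ H = γ H + γ ((fun x => -x) ⁻¹' H) := by rw [hHneg]
        _ = γ (H ∪ ((fun x => -x) ⁻¹' H)) := (measure_union hdisj (hm hHm)).symm
        _ ≤ γ univ := measure_mono (subset_univ _)
    -- there is mass in `H` outside of `Q`
    obtain ⟨r, hr⟩ := hb.subset_closedBall (0 : EuclideanSpace ℝ (Fin 2))
    set V : Set (EuclideanSpace ℝ (Fin 2)) := H ∩ (Metric.closedBall (0 : EuclideanSpace ℝ (Fin 2)) r)ᶜ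
      with hV
    have hVo : IsOpen V := hHo.inter Metric.isClosed_closedBall.isOpen_compl
    have hVne : V.Nonempty := by
      have ha0 : a ≠ 0 := by
        rintro rfl
        rw [map_zero] at hfa
        exact lt_irrefl _ hfa
      have hna : 0 < ‖a‖ := norm_pos_iff.2 ha0
      refine ⟨((|r| + 1) / ‖a‖) • a, ?_, ?_⟩
      · show f (((|r| + 1) / ‖a‖) • a) < 0
        rw [map_smul, smul_eq_mul]
        exact mul_neg_of_pos_of_neg (by positivity) hfa
      · simp only [mem_compl_iff, Metric.mem_closedBall, dist_zero_right, not_le]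
        rw [norm_smul, Real.norm_eq_abs, abs_of_pos (by positivity), div_mul_cancel₀ _ hna.ne']
        have := le_abs_self r
        linarith
    have hVpos : 0 < γ V := by
      rw [pos_iff_ne_zero]
      intro h
      exact (hVo.measure_pos (volume : Measure (EuclideanSpace ℝ (Fin 2))) hVne).ne' (h2 h)
    have hdis2 : Disjoint (interior Q) V := by
      rw [Set.disjoint_left]
      intro x hx hx'
      exact hx'.2 (hr (interior_subset hx))
    have hsum : γ (interior Q) + γ V ≤ γ H := by
      rw [← measure_union hdis2 hVo.measurableSet]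
      apply measure_mono
      rintro x (hx | hx)
      · exact hsub hx
      · exact hx.1
    rw [hint, hh] at hsum
    have h7 : γ univ / 2 + γ univ / 2 + (γ V + γ V) ≤ γ univ := by
      calc γ univ / 2 + γ univ / 2 + (γ V + γ V)
          = (γ univ / 2 + γ V) + (γ univ / 2 + γ V) := by ring
        _ ≤ γ H + γ H := add_le_add hsum hsum
        _ ≤ γ univ := hHle
    rw [ENNReal.add_halves] at h7
    have h8 : γ V + γ V ≤ 0 := by
      have : γ univ + (γ V + γ V) ≤ γ univ + 0 := by simpa using h7
      exact (ENNReal.add_le_add_iff_left hfin).1 this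
    have h9 : γ V ≤ 0 := le_self_add.trans h8
    exact absurd hVpos (not_lt.2 h9)

end Pool.Agent.Helper72
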