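import Mathlib
import Pool.Agent.Helper72.Winding
import Pool.Agent.Helper72.SquareGeom
import Pool.Agent.Helper72.SquareCore

open Set Topology MeasureTheory Filter
open scoped ENNReal NNReal

namespace Pool.Agent.Helper72

/-- The isometry of the plane that moves the standard rectangle onto `rect ρ (τ, θ, r)`. -/
noncomputable def moveEquiv (ρ τ θ r : ℝ) : Plane ≃ᵢ Plane :=
  IsometryEquiv.mk'
    (fun x => !₂[(x 0 - r + τ) * Real.cos θ - (x 1 - ρ * r) * Real.sin θ,
      (x 0 - r + τ) * Real.sin θ + (x 1 - ρ * r) * Real.cos θ])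
    (fun y => !₂[ca θ y - τ + r, cb θ y + ρ * r])
    (by
      intro y
      have h := Real.sin_sq_add_cos_sq θ
      ext i
      fin_cases i
      · simp [ca, cb]
        linear_combination (y 0) * h
      · simp [ca, cb]
        linear_combination (y 1) * h)
    (by
      refine Isometry.of_dist_eq ?_
      intro x y
      have h := Real.sin_sq_add_cos_sq θ
      rw [EuclideanSpace.dist_eq, EuclideanSpace.dist_eq]
      congr 1
      rw [Fin.sum_univ_two, Fin.sum_univ_two]
      simp only [Real.dist_eq, sq_abs]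
      simp
      linear_combination ((x 0 - y 0) ^ 2 + (x 1 - y 1) ^ 2) * h)

lemma moveEquiv_symm_apply (ρ τ θ r : ℝ) (y : Plane) :
    (moveEquiv ρ τ θ r).symm y = !₂[ca θ y - τ + r, cb θ y + ρ * r] := rfl

lemma moveEquiv_image (ρ τ θ r : ℝ) :
    (moveEquiv ρ τ θ r) '' {x | 0 ≤ x 0 ∧ x 0 ≤ 2 * r ∧ 0 ≤ x 1 ∧ x 1 ≤ ρ * (2 * r)}
      = rect ρ (τ, θ, r) := by
  ext y
  constructor
  · rintro ⟨x, hx, rfl⟩
    obtain ⟨z, hz⟩ : ∃ z, z = (moveEquiv ρ τ θ r) x := ⟨_, rfl⟩
    have hx' : x = (moveEquiv ρ τ θ r).symm z := by rw [hz]; simp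
    rw [← hz]
    rw [hx', moveEquiv_symm_apply] at hx
    simp at hx
    obtain ⟨h1, h2, h3, h4⟩ := hx
    refine ⟨?_, ?_⟩
    · show |ca θ z - τ| ≤ r
      rw [abs_le]; constructor <;> linarith
    · show |cb θ z| ≤ ρ * r
      rw [abs_le]; constructor <;> linarith
  · rintro ⟨h1, h2⟩
    have h1 : |ca θ y - τ| ≤ r := h1
    have h2 : |cb θ y| ≤ ρ * r := h2
    rw [abs_le] at h1 h2
    refine ⟨(moveEquiv ρ τ θ r).symm y, ?_, by simp⟩
    rw [moveEquiv_symm_apply]
    simp
    refine ⟨by linarith, by linarith, by linarith, by linarith⟩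

lemma exists_rect (ρ : ℝ) (hρ : 0 < ρ) (μ : Fin 3 → Measure Plane) [∀ i, IsFiniteMeasure (μ i)]
    (hac : ∀ i, μ i ≪ (volume : Measure Plane))
    (hcs : ∀ i, ∃ K : Set Plane, IsCompact K ∧ μ i Kᶜ = 0) :
    ∃ τ θ r : ℝ, 0 ≤ τ ∧ θ ∈ Icc 0 (2 * Real.pi) ∧ 0 < r ∧
      ∀ i, (μ i).real (rect ρ (τ, θ, r)) = (μ i).real univ / 2 := by
  classical
  choose K hK hK0 using hcs
  -- a common disc
  obtain ⟨D, hD, hKD⟩ : ∃ D : ℝ, 0 < D ∧ ∀ i, K i ⊆ Metric.closedBall (0 : Plane) D := by
    have hb : Bornology.IsBounded (⋃ i, K i) := by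
      rw [Bornology.isBounded_iUnion]
      exact fun i => (hK i).isBounded
    obtain ⟨D, hD⟩ := hb.subset_closedBall (0 : Plane)
    refine ⟨max D 1, by positivity, fun i => ?_⟩
    exact (subset_iUnion K i).trans (hD.trans (Metric.closedBall_subset_closedBall (le_max_left _ _)))
  have hs : ∀ i, μ i (Metric.closedBall (0 : Plane) D)ᶜ = 0 := fun i =>
    measure_mono_null (compl_subset_compl.2 (hKD i)) (hK0 i)
  set lam : Measure Plane := (volume : Measure Plane).restrict (Metric.closedBall (0 : Plane) D)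
    with hlam
  have : IsFiniteMeasure lam := by
    refine ⟨?_⟩
    rw [hlam, Measure.restrict_apply_univ]
    exact measure_closedBall_lt_top
  have hlac : lam ≪ (volume : Measure Plane) := Measure.absolutelyContinuous_of_le Measure.restrict_le_self
  have hls : lam (Metric.closedBall (0 : Plane) D)ᶜ = 0 := by
    rw [hlam, Measure.restrict_apply Metric.isClosed_closedBall.measurableSet.compl]
    simp
  have hlpos : ∀ U : Set Plane, IsOpen U → (Metric.ball (0 : Plane) D ∩ U).Nonempty → 0 < lam U := by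
    intro U hU hne
    rw [hlam, Measure.restrict_apply hU.measurableSet]
    have h1 : 0 < (volume : Measure Plane) (Metric.ball (0 : Plane) D ∩ U) :=
      (Metric.isOpen_ball.inter hU).measure_pos _ hne
    refine h1.trans_le (measure_mono ?_)
    rintro x ⟨hx1, hx2⟩
    exact ⟨hx2, Metric.ball_subset_closedBall hx1⟩
  set C : ℝ := lam.real univ with hC
  have hCpos : 0 < C := by
    have h1 := hlpos univ isOpen_univ ⟨0, by simp [hD], mem_univ _⟩
    exact ENNReal.toReal_pos h1.ne' (measure_ne_top _ _)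
  set KK : Set (ℝ × ℝ × ℝ) := Icc 0 (D + D / ρ) ×ˢ (Icc 0 (2 * Real.pi) ×ˢ
        Icc 0 ((D + D / ρ) + (D + D / ρ))) with hKK
  have hKKc : IsCompact KK := isCompact_Icc.prod (isCompact_Icc.prod isCompact_Icc)
  -- the perturbed statement
  have hpert : ∀ η : ℝ≥0, 0 < η → ∃ p ∈ KK,
      ((μ 0).real (rect ρ p) + η * lam.real (rect ρ p) = ((μ 0).real univ + η * C) / 2) ∧
      (μ 1).real (rect ρ p) = (μ 1).real univ / 2 ∧
      (μ 2).real (rect ρ p) = (μ 2).real univ / 2 := by
    intro η hη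
    have hreal : ∀ A : Set Plane, (μ 0 + η • lam).real A = (μ 0).real A + η * lam.real A := by
      intro A
      rw [measureReal_add_apply, measureReal_nnreal_smul_apply]
    have hac' : (μ 0 + η • lam) ≪ (volume : Measure Plane) := by
      refine Measure.AbsolutelyContinuous.add_left (hac 0) ?_
      exact hlac.smul_left η
    have hpos' : ∀ U : Set Plane, IsOpen U → (Metric.ball (0 : Plane) D ∩ U).Nonempty →
        0 < (μ 0 + η • lam) U := by
      intro U hU hne
      have := hlpos U hU hne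
      rw [Measure.add_apply, Measure.smul_apply]
      have h2 : 0 < η • lam U := by
        rw [ENNReal.smul_def, smul_eq_mul]
        exact ENNReal.mul_pos (by exact_mod_cast hη.ne') this.ne'
      exact h2.trans_le le_add_self
    obtain ⟨p, hp, h1, h2, h3⟩ := core (μ := μ 0 + η • lam) (ν₂ := μ 1) (ν₃ := μ 2)
      hac' (hac 1) (hac 2) hρ hD (by
        rw [Measure.add_apply, Measure.smul_apply, hs 0, hls]; simp) (hs 1) (hs 2) hpos' (by
        rw [hreal]
        have h1 : 0 ≤ (μ 0).real univ := measureReal_nonneg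
        have h2 : 0 < (η : ℝ) * lam.real univ := mul_pos (by exact_mod_cast hη) hCpos
        linarith)
    refine ⟨p, hp, ?_, h2, h3⟩
    rw [hreal, hreal] at h1
    exact h1
  -- compactness
  have hfc : ∀ i, Continuous (fun p => (μ i).real (rect ρ p)) := fun i =>
    continuous_measure_rect ρ (μ i) (hac i)
  set Z : Set (ℝ × ℝ × ℝ) := KK ∩ ({p | (μ 1).real (rect ρ p) = (μ 1).real univ / 2} ∩
    {p | (μ 2).real (rect ρ p) = (μ 2).real univ / 2}) with hZ
  have hZc : IsCompact Z := hKKc.inter_right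
    ((isClosed_eq (hfc 1) continuous_const).inter (isClosed_eq (hfc 2) continuous_const))
  have hZne : Z.Nonempty := by
    obtain ⟨p, hp, -, h2, h3⟩ := hpert 1 one_pos
    exact ⟨p, hp, h2, h3⟩
  obtain ⟨p, hpZ, hpmin⟩ := hZc.exists_isMinOn hZne
    (f := fun p => |(μ 0).real (rect ρ p) - (μ 0).real univ / 2|)
    (((hfc 0).sub continuous_const).abs.continuousOn)
  have hp0 : (μ 0).real (rect ρ p) = (μ 0).real univ / 2 := by
    by_contra hne
    set ε : ℝ := |(μ 0).real (rect ρ p) - (μ 0).real univ / 2| with hε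
    have hεpos : 0 < ε := abs_pos.2 (sub_ne_zero.2 hne)
    set η : ℝ≥0 := ⟨ε / C, (div_pos hεpos hCpos).le⟩ with hη
    have hηr : (η : ℝ) = ε / C := rfl
    obtain ⟨q, hq, h1, h2, h3⟩ := hpert η (by
      rw [← NNReal.coe_pos, hηr]; exact div_pos hεpos hCpos)
    have hqZ : q ∈ Z := ⟨hq, h2, h3⟩
    have hle : ε ≤ |(μ 0).real (rect ρ q) - (μ 0).real univ / 2| := hpmin hqZ
    have hl1 : 0 ≤ lam.real (rect ρ q) := measureReal_nonneg
    have hl2 : lam.real (rect ρ q) ≤ C := measureReal_mono (subset_univ _)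
    have hηC : (η : ℝ) * C = ε := by rw [hηr]; field_simp
    have hη0 : 0 ≤ (η : ℝ) := η.2
    have hb1 : 0 ≤ (η : ℝ) * lam.real (rect ρ q) := mul_nonneg hη0 hl1
    have hb2 : (η : ℝ) * lam.real (rect ρ q) ≤ ε := by
      rw [← hηC]; exact mul_le_mul_of_nonneg_left hl2 hη0
    have heq : (μ 0).real (rect ρ q) - (μ 0).real univ / 2 = ε / 2 - η * lam.real (rect ρ q) := by
      rw [hηC] at h1; linarith
    rw [heq] at hle
    have : |ε / 2 - η * lam.real (rect ρ q)| ≤ ε / 2 := by
      rw [abs_le]; constructor <;> linarith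
    linarith
  have hall : ∀ i, (μ i).real (rect ρ p) = (μ i).real univ / 2 := by
    intro i
    fin_cases i
    · exact hp0
    · exact hpZ.2.1
    · exact hpZ.2.2
  obtain ⟨τ, θ, r⟩ := p
  have hr0 : 0 ≤ r := hpZ.1.2.2.1
  rcases hr0.eq_or_lt with h | h
  · -- all measures vanish
    subst h
    refine ⟨τ, θ, 1, hpZ.1.1.1, hpZ.1.2.1, one_pos, fun i => ?_⟩
    have h1 := hall i
    rw [real_rect_zero (hac i)] at h1
    have h2 : (μ i).real univ = 0 := by linarith
    have h3 : (μ i).real (rect ρ (τ, θ, 1)) ≤ (μ i).real univ := measureReal_mono (subset_univ _)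
    have h4 : 0 ≤ (μ i).real (rect ρ (τ, θ, 1)) := measureReal_nonneg
    linarith
  · exact ⟨τ, θ, r, hpZ.1.1.1, hpZ.1.2.1, h, hall⟩

/-- Main theorem: three compactly supported finite absolutely continuous measures are simultaneously
halved by a rectangle of any prescribed aspect ratio. -/
theorem exists_congruent_rectangle (ρ : ℝ) (hρ : 0 < ρ) (μ : Fin 3 → Measure Plane)
    [∀ i, IsFiniteMeasure (μ i)] (hac : ∀ i, μ i ≪ (volume : Measure Plane))
    (hcs : ∀ i, ∃ K : Set Plane, IsCompact K ∧ μ i Kᶜ = 0) :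
    ∃ s : ℝ, 0 < s ∧ ∃ e : Plane ≃ᵢ Plane, ∀ i,
      μ i (e '' {x | 0 ≤ x 0 ∧ x 0 ≤ s ∧ 0 ≤ x 1 ∧ x 1 ≤ ρ * s}) = μ i univ / 2 := by
  obtain ⟨τ, θ, r, -, -, hr, h⟩ := exists_rect ρ hρ μ hac hcs
  refine ⟨2 * r, by positivity, moveEquiv ρ τ θ r, fun i => ?_⟩
  rw [moveEquiv_image]
  have h1 := h i
  rw [measureReal_def, measureReal_def] at h1
  rw [← ENNReal.toReal_eq_toReal_iff' (measure_ne_top _ _) (by
    exact (ENNReal.div_lt_top (measure_ne_top _ _) (by norm_num)).ne)]
  rw [h1, ENNReal.toReal_div]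
  norm_num

end Pool.Agent.Helper72
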