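import Mathlib
import Pool.Agent.Helper72.Winding
import Pool.Agent.Helper72.SquareGeom
import Pool.Agent.Helper72.SquareCore
import Pool.Agent.Helper72.SquareMain

open Set Topology MeasureTheory Filter
open scoped ENNReal NNReal

namespace Pool.Agent.Helper72

/-- Compactified family of rectangles: parameters `(θ, α, κ)`; for `κ = 1 / (1 + r)` it is the
rectangle of half side `r`, for `κ = 0` it is a half plane. -/
def rectK (ρ : ℝ) (p : ℝ × ℝ × ℝ) : Set Plane :=
  {x | p.2.1 ≤ ca p.1 x ∧ p.2.2 * (ca p.1 x - p.2.1) ≤ 2 * (1 - p.2.2) ∧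
    p.2.2 * |cb p.1 x| ≤ ρ * (1 - p.2.2)}

lemma isClosed_rectK (ρ : ℝ) (p : ℝ × ℝ × ℝ) : IsClosed (rectK ρ p) := by
  apply IsClosed.inter
  · exact isClosed_le continuous_const (continuous_ca_right _)
  apply IsClosed.inter
  · exact isClosed_le (continuous_const.mul ((continuous_ca_right _).sub continuous_const))
      continuous_const
  · exact isClosed_le (continuous_const.mul (continuous_cb_right _).abs) continuous_const

lemma measurableSet_rectK (ρ : ℝ) (p : ℝ × ℝ × ℝ) : MeasurableSet (rectK ρ p) :=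
  (isClosed_rectK ρ p).measurableSet

lemma rectK_eq_rect (ρ θ α r : ℝ) (hr : 0 < r) :
    rectK ρ (θ, α, 1 / (1 + r)) = rect ρ (α + r, θ, r) := by
  have h1 : 0 < 1 + r := by linarith
  have h2 : 0 < 1 / (1 + r) := by positivity
  have h3 : 1 - 1 / (1 + r) = (1 / (1 + r)) * r := by field_simp; ring
  ext x
  simp only [rectK, rect, mem_ofPred_eq, h3]
  constructor
  · rintro ⟨a, b, c⟩
    have b' : ca θ x - α ≤ 2 * r := by
      have : 1 / (1 + r) * (ca θ x - α) ≤ 1 / (1 + r) * (2 * r) := by linarith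
      exact le_of_mul_le_mul_left this h2
    have c' : |cb θ x| ≤ ρ * r := by
      have : 1 / (1 + r) * |cb θ x| ≤ 1 / (1 + r) * (ρ * r) := by linarith
      exact le_of_mul_le_mul_left this h2
    refine ⟨?_, c'⟩
    rw [abs_le]; constructor <;> linarith
  · rintro ⟨a, c⟩
    rw [abs_le] at a
    refine ⟨by linarith, ?_, ?_⟩
    · have := mul_le_mul_of_nonneg_left (show ca θ x - α ≤ 2 * r by linarith) h2.le
      linarith
    · have := mul_le_mul_of_nonneg_left c h2.le
      linarith

/-- The measure of the compactified rectangles depends continuously on the parameters. -/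
lemma continuous_measure_rectK (ρ : ℝ) (hρ : 0 < ρ) (μ : Measure Plane) [IsFiniteMeasure μ]
    (hμ : μ ≪ (volume : Measure Plane)) :
    Continuous (fun p : ℝ × ℝ × ℝ => μ.real (rectK ρ p)) := by
  have key : Continuous (fun p : ℝ × ℝ × ℝ => μ (rectK ρ p)) := by
    rw [continuous_iff_continuousAt]
    intro p
    refine tendsto_measure_of_ae_tendsto_indicator_of_isFiniteMeasure (𝓝 p)
      (measurableSet_rectK ρ p) (fun q => measurableSet_rectK ρ q) ?_
    have hnull : ∀ᵐ x ∂μ, (ca p.1 x ≠ p.2.1 ∧ ca p.1 x ≠ p.2.1 + 2 * (1 - p.2.2) / p.2.2) ∧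
        (cb p.1 x ≠ ρ * (1 - p.2.2) / p.2.2 ∧ cb p.1 x ≠ -(ρ * (1 - p.2.2) / p.2.2)) := by
      apply hμ.ae_le
      have h1 := volume_ca_eq p.1 p.2.1
      have h2 := volume_ca_eq p.1 (p.2.1 + 2 * (1 - p.2.2) / p.2.2)
      have h3 := volume_cb_eq p.1 (ρ * (1 - p.2.2) / p.2.2)
      have h4 := volume_cb_eq p.1 (-(ρ * (1 - p.2.2) / p.2.2))
      rw [← compl_compl {x | ca p.1 x = p.2.1}] at h1
      rw [← compl_compl {x | ca p.1 x = p.2.1 + 2 * (1 - p.2.2) / p.2.2}] at h2
      rw [← compl_compl {x | cb p.1 x = ρ * (1 - p.2.2) / p.2.2}] at h3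
      rw [← compl_compl {x | cb p.1 x = -(ρ * (1 - p.2.2) / p.2.2)}] at h4
      have h1' := mem_ae_iff.2 h1
      have h2' := mem_ae_iff.2 h2
      have h3' := mem_ae_iff.2 h3
      have h4' := mem_ae_iff.2 h4
      filter_upwards [h1', h2', h3', h4'] with x a b c d
      exact ⟨⟨a, b⟩, ⟨c, d⟩⟩
    filter_upwards [hnull] with x hx
    obtain ⟨⟨hx1, hx2⟩, hx3, hx4⟩ := hx
    have c0 : Continuous (fun q : ℝ × ℝ × ℝ => ca q.1 x) :=
      (continuous_ca_left x).comp continuous_fst
    have c0' : Continuous (fun q : ℝ × ℝ × ℝ => cb q.1 x) :=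
      (continuous_cb_left x).comp continuous_fst
    have c1 : Continuous (fun q : ℝ × ℝ × ℝ => q.2.1 - ca q.1 x) := by fun_prop
    have c2 : Continuous (fun q : ℝ × ℝ × ℝ =>
        q.2.2 * (ca q.1 x - q.2.1) - 2 * (1 - q.2.2)) := by fun_prop
    have c3 : Continuous (fun q : ℝ × ℝ × ℝ =>
        q.2.2 * |cb q.1 x| - ρ * (1 - q.2.2)) :=
      ((continuous_snd.comp continuous_snd).mul c0'.abs).sub (by fun_prop)
    have ne1 : p.2.1 - ca p.1 x ≠ 0 := by
      intro h
      exact hx1 (by linarith)
    have ne2 : p.2.2 * (ca p.1 x - p.2.1) - 2 * (1 - p.2.2) ≠ 0 := by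
      intro h
      by_cases hk : p.2.2 = 0
      · rw [hk] at h; norm_num at h
      · apply hx2
        field_simp
        linarith
    have ne3 : p.2.2 * |cb p.1 x| - ρ * (1 - p.2.2) ≠ 0 := by
      intro h
      by_cases hk : p.2.2 = 0
      · rw [hk] at h; norm_num at h; exact hρ.ne' h
      · have h' : |cb p.1 x| = ρ * (1 - p.2.2) / p.2.2 := by
          field_simp
          linarith
        rcases eq_or_eq_neg_of_abs_eq h' with h'' | h''
        · exact hx3 h''
        · exact hx4 h''
    have e1 : ∀ᶠ q : ℝ × ℝ × ℝ in 𝓝 p, (q.2.1 ≤ ca q.1 x ↔ p.2.1 ≤ ca p.1 x) := by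
      rcases lt_or_gt_of_ne ne1 with h | h
      · filter_upwards [c1.continuousAt.eventually_lt_const h] with q hq
        constructor <;> intro _ <;> linarith
      · filter_upwards [c1.continuousAt.eventually_const_lt h] with q hq
        constructor <;> intro _ <;> linarith
    have e2 : ∀ᶠ q : ℝ × ℝ × ℝ in 𝓝 p, (q.2.2 * (ca q.1 x - q.2.1) ≤ 2 * (1 - q.2.2) ↔
        p.2.2 * (ca p.1 x - p.2.1) ≤ 2 * (1 - p.2.2)) := by
      rcases lt_or_gt_of_ne ne2 with h | h
      · filter_upwards [c2.continuousAt.eventually_lt_const h] with q hq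
        constructor <;> intro _ <;> linarith
      · filter_upwards [c2.continuousAt.eventually_const_lt h] with q hq
        constructor <;> intro _ <;> linarith
    have e3 : ∀ᶠ q : ℝ × ℝ × ℝ in 𝓝 p, (q.2.2 * |cb q.1 x| ≤ ρ * (1 - q.2.2) ↔
        p.2.2 * |cb p.1 x| ≤ ρ * (1 - p.2.2)) := by
      rcases lt_or_gt_of_ne ne3 with h | h
      · filter_upwards [c3.continuousAt.eventually_lt_const h] with q hq
        constructor <;> intro _ <;> linarith
      · filter_upwards [c3.continuousAt.eventually_const_lt h] with q hq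
        constructor <;> intro _ <;> linarith
    filter_upwards [e1, e2, e3] with q h1 h2 h3
    simp only [rectK, mem_ofPred_eq]
    rw [h1, h2, h3]
  rw [continuous_iff_continuousAt] at key ⊢
  intro p
  exact (ENNReal.tendsto_toReal (measure_ne_top μ _)).comp (key p)

/-- Mass outside large discs tends to zero. -/
lemma tendsto_compl_ball (μ : Measure Plane) [IsFiniteMeasure μ] :
    Tendsto (fun n : ℕ => μ.real (Metric.closedBall (0 : Plane) ((n : ℝ) + 1))ᶜ) atTop (𝓝 0) := by
  have h := tendsto_measure_iInter_atTop (μ := μ)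
    (s := fun n : ℕ => (Metric.closedBall (0 : Plane) ((n : ℝ) + 1))ᶜ)
    (fun n => Metric.isClosed_closedBall.measurableSet.compl.nullMeasurableSet)
    (by
      intro m n hmn
      apply compl_subset_compl.2
      apply Metric.closedBall_subset_closedBall
      have : (m : ℝ) ≤ n := by exact_mod_cast hmn
      linarith)
    ⟨0, measure_ne_top _ _⟩
  have hI : (⋂ n : ℕ, (Metric.closedBall (0 : Plane) ((n : ℝ) + 1))ᶜ) = ∅ := by
    rw [← compl_iUnion, compl_empty_iff, eq_univ_iff_forall]
    intro x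
    rw [mem_iUnion]
    obtain ⟨n, hn⟩ := exists_nat_ge ‖x‖
    refine ⟨n, ?_⟩
    simp only [Metric.mem_closedBall, dist_zero_right]
    linarith
  rw [hI, measure_empty] at h
  have h2 := (ENNReal.tendsto_toReal ENNReal.zero_ne_top).comp h
  simpa [measureReal_def, Function.comp_def] using h2

lemma real_compl_add {μ : Measure Plane} [IsFiniteMeasure μ] (r : ℝ) :
    μ.real (Metric.closedBall (0 : Plane) r) + μ.real (Metric.closedBall (0 : Plane) r)ᶜ
      = μ.real univ :=
  measureReal_add_measureReal_compl Metric.isClosed_closedBall.measurableSet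

/-- General theorem: three finite absolutely continuous measures are simultaneously halved by a
rectangle of prescribed aspect ratio or by a half plane. -/
theorem exists_rectK (ρ : ℝ) (hρ : 0 < ρ) (μ : Fin 3 → Measure Plane) [∀ i, IsFiniteMeasure (μ i)]
    (hac : ∀ i, μ i ≪ (volume : Measure Plane)) :
    (∃ τ θ r : ℝ, 0 < r ∧ ∀ i, (μ i).real (rect ρ (τ, θ, r)) = (μ i).real univ / 2) ∨
    (∃ θ α : ℝ, ∀ i, (μ i).real {x : Plane | α ≤ ca θ x} = (μ i).real univ / 2) := by
  classical
  by_cases hzero : ∀ i, (μ i).real univ = 0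
  · left
    refine ⟨0, 0, 1, one_pos, fun i => ?_⟩
    have h1 := hzero i
    have h3 : (μ i).real (rect ρ (0, 0, 1)) ≤ (μ i).real univ := measureReal_mono (subset_univ _)
    have h4 : 0 ≤ (μ i).real (rect ρ (0, 0, 1)) := measureReal_nonneg
    linarith
  push Not at hzero
  obtain ⟨j, hj⟩ := hzero
  have hjpos : 0 < (μ j).real univ := lt_of_le_of_ne measureReal_nonneg (Ne.symm hj)
  -- choose the fixed disc
  obtain ⟨N, hN⟩ : ∃ N : ℕ, (μ j).real (Metric.closedBall (0 : Plane) ((N : ℝ) + 1))ᶜ
      < (μ j).real univ / 4 := by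
    have := (tendsto_compl_ball (μ j)).eventually (gt_mem_nhds (show (0 : ℝ) < (μ j).real univ / 4 by
      positivity))
    exact this.exists
  set L : ℝ := (N : ℝ) + 1 with hL
  have hLpos : 0 < L := by positivity
  have hLρ : 0 < L / ρ := div_pos hLpos hρ
  set KK : Set (ℝ × ℝ × ℝ) := Icc 0 (2 * Real.pi) ×ˢ (Icc (-(L + L / ρ)) L ×ˢ Icc 0 1) with hKK
  have hKKc : IsCompact KK := isCompact_Icc.prod (isCompact_Icc.prod isCompact_Icc)
  have happ : ∀ n : ℕ, N ≤ n → ∃ p ∈ KK, ∀ i,
      |(μ i).real (rectK ρ p) - (μ i).real univ / 2| ≤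
        (μ i).real (Metric.closedBall (0 : Plane) ((n : ℝ) + 1))ᶜ := by
    intro n hn
    set B : Set Plane := Metric.closedBall (0 : Plane) ((n : ℝ) + 1) with hB
    have hBm : MeasurableSet B := Metric.isClosed_closedBall.measurableSet
    have hBL : Metric.closedBall (0 : Plane) L ⊆ B := by
      apply Metric.closedBall_subset_closedBall
      have : (N : ℝ) ≤ n := by exact_mod_cast hn
      linarith
    obtain ⟨τ, θ, r, hτ, hθ, hr, hall⟩ := exists_rect ρ hρ (fun i => (μ i).restrict B)
      (fun i => (Measure.absolutelyContinuous_of_le Measure.restrict_le_self).trans (hac i))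
      (fun i => ⟨B, isCompact_closedBall _ _, by
        rw [Measure.restrict_apply hBm.compl]; simp⟩)
    have hres : ∀ i, (μ i).real (rect ρ (τ, θ, r) ∩ B) = (μ i).real B / 2 := by
      intro i
      have := hall i
      rw [measureReal_restrict_apply (measurableSet_rect ρ _), measureReal_restrict_apply_univ]
        at this
      exact this
    refine ⟨(θ, τ - r, 1 / (1 + r)), ⟨hθ, ⟨?_, ?_⟩, ⟨by positivity, ?_⟩⟩, ?_⟩
    · -- lower bound
      by_contra hlt
      have hlt : τ - r < -(L + L / ρ) := not_le.1 hlt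
      have hrbig : L + L / ρ < r := by linarith
      have hsub : Metric.closedBall (0 : Plane) L ⊆ rect ρ (τ, θ, r) ∩ B := by
        intro x hx
        refine ⟨⟨?_, ?_⟩, hBL hx⟩
        · have hx' : ‖x‖ ≤ L := by simpa using hx
          have h1 := abs_le.1 ((abs_ca_le θ x).trans hx')
          show |ca θ x - τ| ≤ r
          rw [abs_le]; constructor <;> linarith
        · have hx' : ‖x‖ ≤ L := by simpa using hx
          have h1 := (abs_cb_le θ x).trans hx'
          show |cb θ x| ≤ ρ * r
          have h2 : L / ρ ≤ r := by linarith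
          rw [div_le_iff₀ hρ] at h2
          linarith
      have h1 : (μ j).real (Metric.closedBall (0 : Plane) L) ≤ (μ j).real B / 2 := by
        rw [← hres j]; exact measureReal_mono hsub
      have h2 := real_compl_add (μ := μ j) L
      have h3 : (μ j).real B ≤ (μ j).real univ := measureReal_mono (subset_univ _)
      linarith
    · -- upper bound
      show τ - r ≤ L
      by_contra hlt
      push Not at hlt
      have hsub : rect ρ (τ, θ, r) ∩ B ⊆ (Metric.closedBall (0 : Plane) L)ᶜ := by
        rintro x ⟨⟨h1, -⟩, -⟩ hx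
        have hx' : ‖x‖ ≤ L := by simpa using hx
        have h2 := abs_le.1 ((abs_ca_le θ x).trans hx')
        have h1 : |ca θ x - τ| ≤ r := h1
        rw [abs_le] at h1
        linarith
      have h1 : (μ j).real B / 2 ≤ (μ j).real (Metric.closedBall (0 : Plane) L)ᶜ := by
        rw [← hres j]; exact measureReal_mono hsub
      have h2 := real_compl_add (μ := μ j) L
      have h3 : (μ j).real (Metric.closedBall (0 : Plane) L) ≤ (μ j).real B := measureReal_mono hBL
      linarith
    · show 1 / (1 + r) ≤ 1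
      rw [div_le_one (by linarith)]; linarith
    · intro i
      rw [rectK_eq_rect ρ θ (τ - r) r hr, sub_add_cancel]
      have h1 := hres i
      have h2 := real_compl_add (μ := μ i) ((n : ℝ) + 1)
      have h3 : (μ i).real (rect ρ (τ, θ, r)) = (μ i).real (rect ρ (τ, θ, r) ∩ B) +
          (μ i).real (rect ρ (τ, θ, r) \ B) := (measureReal_inter_add_sdiff hBm).symm
      have h4 : (μ i).real (rect ρ (τ, θ, r) \ B) ≤ (μ i).real Bᶜ :=
        measureReal_mono (fun x hx => hx.2)
      have h5 : 0 ≤ (μ i).real (rect ρ (τ, θ, r) \ B) := measureReal_nonneg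
      have h6 : 0 ≤ (μ i).real Bᶜ := measureReal_nonneg
      have h2 : (μ i).real B + (μ i).real Bᶜ = (μ i).real univ := h2
      rw [abs_le]
      constructor <;> linarith
  -- minimise the total defect
  have hfc : ∀ i, Continuous (fun p => (μ i).real (rectK ρ p)) := fun i =>
    continuous_measure_rectK ρ hρ (μ i) (hac i)
  have hhc : Continuous (fun p : ℝ × ℝ × ℝ => ∑ i, |(μ i).real (rectK ρ p) - (μ i).real univ / 2|) :=
    continuous_finsetSum _ (fun i _ => ((hfc i).sub continuous_const).abs)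
  have hKKne : KK.Nonempty := by
    obtain ⟨p, hp, -⟩ := happ N le_rfl
    exact ⟨p, hp⟩
  obtain ⟨p, hpK, hpmin⟩ := hKKc.exists_isMinOn hKKne hhc.continuousOn
  have hle : ∑ i, |(μ i).real (rectK ρ p) - (μ i).real univ / 2| ≤ 0 := by
    have ht : Tendsto (fun n : ℕ => ∑ i,
        (μ i).real (Metric.closedBall (0 : Plane) ((n : ℝ) + 1))ᶜ) atTop (𝓝 (∑ _i : Fin 3, (0 : ℝ))) :=
      tendsto_finsetSum _ (fun i _ => tendsto_compl_ball (μ i))
    rw [Finset.sum_const_zero] at ht
    apply ge_of_tendsto ht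
    filter_upwards [eventually_ge_atTop N] with n hn
    obtain ⟨q, hq, hqi⟩ := happ n hn
    exact (hpmin hq).trans (Finset.sum_le_sum (fun i _ => hqi i))
  have hall : ∀ i, (μ i).real (rectK ρ p) = (μ i).real univ / 2 := by
    intro i
    have h0 : ∑ i, |(μ i).real (rectK ρ p) - (μ i).real univ / 2| = 0 :=
      le_antisymm hle (Finset.sum_nonneg (fun i _ => abs_nonneg _))
    have h1 := (Finset.sum_eq_zero_iff_of_nonneg (fun i _ => abs_nonneg _)).1 h0 i (Finset.mem_univ i)
    exact sub_eq_zero.1 (abs_eq_zero.1 h1)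
  obtain ⟨θ, α, κ⟩ := p
  obtain ⟨hθ, hα, hκ⟩ := hpK
  have hκ0 : 0 ≤ κ := hκ.1
  have hκ1 : κ ≤ 1 := hκ.2
  rcases hκ0.eq_or_lt with h | h
  · right
    refine ⟨θ, α, fun i => ?_⟩
    rw [← hall i]
    congr 1
    ext x
    simp only [rectK, mem_ofPred_eq, ← h]
    constructor
    · intro hx
      exact ⟨hx, by norm_num, by simpa using hρ.le⟩
    · exact fun hx => hx.1
  · rcases hκ1.eq_or_lt with h1 | h1
    · -- degenerate: all measures would vanish
      exfalso
      have h2 := hall j
      have h3 : (μ j).real (rectK ρ (θ, α, κ)) = 0 := by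
        have h0 : μ j (rectK ρ (θ, α, κ)) = 0 := by
          apply hac j
          apply measure_mono_null _ (volume_ca_eq θ α)
          rintro x ⟨ha, hb, -⟩
          have ha : α ≤ ca θ x := ha
          have hb : κ * (ca θ x - α) ≤ 2 * (1 - κ) := hb
          rw [h1] at hb
          show ca θ x = α
          linarith
        rw [measureReal_def, h0]; rfl
      rw [h3] at h2
      linarith
    · left
      have hr : 0 < (1 - κ) / κ := div_pos (by linarith) h
      refine ⟨α + (1 - κ) / κ, θ, (1 - κ) / κ, hr, fun i => ?_⟩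
      rw [← hall i, ← rectK_eq_rect ρ θ α _ hr]
      have : 1 / (1 + (1 - κ) / κ) = κ := by field_simp; ring
      rw [this]

end Pool.Agent.Helper72
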