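import Mathlib
import Pool.Agent.Helper72.Winding
import Pool.Agent.Helper72.SquareGeom
import Pool.Agent.Helper72.SquareCore
import Pool.Agent.Helper72.SquareMain
import Pool.Agent.Helper72.SquareGeneral
import Pool.Agent.Helper72.SquareCounter

open Set Topology MeasureTheory Filter
open scoped ENNReal NNReal

namespace Pool.Agent.Helper72

lemma eq_half_of_real {μ : Measure Plane} [IsFiniteMeasure μ] {A : Set Plane}
    (h : μ.real A = μ.real univ / 2) : μ A = μ univ / 2 := by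
  rw [measureReal_def, measureReal_def] at h
  rw [← ENNReal.toReal_eq_toReal_iff' (measure_ne_top _ _) (by
    exact (ENNReal.div_lt_top (measure_ne_top _ _) (by norm_num)).ne)]
  rw [h, ENNReal.toReal_div]
  norm_num

/-- The isometry moving the standard half plane. -/
lemma exists_halfplane_isometry (θ α : ℝ) : ∃ e : Plane ≃ᵢ Plane,
    {x : Plane | α ≤ ca θ x} = e '' {x : Plane | 0 ≤ x 0} := by
  refine ⟨moveEquiv 1 α θ 0, ?_⟩
  ext y
  constructor
  · intro h
    refine ⟨(moveEquiv 1 α θ 0).symm y, ?_, by simp⟩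
    have h : α ≤ ca θ y := h
    show 0 ≤ ((moveEquiv 1 α θ 0).symm y) 0
    rw [moveEquiv_symm_apply]
    simp
    linarith
  · rintro ⟨x, hx, rfl⟩
    obtain ⟨z, hz⟩ : ∃ z, z = (moveEquiv 1 α θ 0) x := ⟨_, rfl⟩
    have hx' : x = (moveEquiv 1 α θ 0).symm z := by rw [hz]; simp
    rw [← hz]
    have hx : 0 ≤ x 0 := hx
    rw [hx', moveEquiv_symm_apply] at hx
    simp at hx
    show α ≤ ca θ z
    linarith

/-- General statement with congruent copies. -/
theorem exists_rectangle_or_halfplane (ρ : ℝ) (hρ : 0 < ρ) (μ : Fin 3 → Measure Plane)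
    [∀ i, IsFiniteMeasure (μ i)] (hac : ∀ i, μ i ≪ (volume : Measure Plane)) :
    (∃ s : ℝ, 0 < s ∧ ∃ e : Plane ≃ᵢ Plane, ∀ i,
      μ i (e '' {x | 0 ≤ x 0 ∧ x 0 ≤ s ∧ 0 ≤ x 1 ∧ x 1 ≤ ρ * s}) = μ i univ / 2) ∨
    (∃ e : Plane ≃ᵢ Plane, ∀ i, μ i (e '' {x | 0 ≤ x 0}) = μ i univ / 2) := by
  rcases exists_rectK ρ hρ μ hac with ⟨τ, θ, r, hr, h⟩ | ⟨θ, α, h⟩
  · left
    refine ⟨2 * r, by positivity, moveEquiv ρ τ θ r, fun i => ?_⟩
    rw [moveEquiv_image]
    exact eq_half_of_real (h i)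
  · right
    obtain ⟨e, he⟩ := exists_halfplane_isometry θ α
    refine ⟨e, fun i => ?_⟩
    rw [← he]
    exact eq_half_of_real (h i)

end Pool.Agent.Helper72
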